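import Pool.Agent.Lib_helper27.ABO.Defs

/-!
# Formula calculus (MP_675993_lc)

For every construction: value, size, and `Below`.
-/

set_option autoImplicit false

namespace Pool.Agent.ABO

namespace Fml

theorem size_pos (φ : Fml) : 1 ≤ φ.size := by
  cases φ <;> simp [size]

theorem Below.mono {t t' : ℕ} (h : t ≤ t') : ∀ {φ : Fml}, φ.Below t → φ.Below t'
  | .tru, _ => trivial
  | .var _, hφ => lt_of_lt_of_le (b := t) hφ h
  | .nand _ _, hφ => ⟨Below.mono h hφ.1, Below.mono h hφ.2⟩

/-- the value depends only on the bits below the bound -/
theorem eval_congr {W W' : List Bool} {t : ℕ} (h : ∀ i < t, W.getD i false = W'.getD i false) :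
    ∀ {φ : Fml}, φ.Below t → φ.eval W = φ.eval W'
  | .tru, _ => rfl
  | .var i, hφ => h i hφ
  | .nand a b, hφ => by
    show (!(eval W a && eval W b)) = !(eval W' a && eval W' b)
    rw [eval_congr h hφ.1, eval_congr h hφ.2]

theorem getD_append_lt {W U : List Bool} {i : ℕ} (h : i < W.length) :
    (W ++ U).getD i false = W.getD i false := by
  rw [List.getD_eq_getElem?_getD, List.getD_eq_getElem?_getD, List.getElem?_append_left h]

/-- longer lists of bits -/
theorem eval_append {W U : List Bool} {φ : Fml} (h : φ.Below W.length) :
    φ.eval (W ++ U) = φ.eval W :=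
  eval_congr (fun _ hi => getD_append_lt hi) h

/-! ### connectives -/

/-- constant -/
def con (b : Bool) : Fml := if b = true then tru else nand tru tru

@[simp] theorem eval_con (W : List Bool) (b : Bool) : (con b).eval W = b := by
  cases b <;> simp [con, eval]

theorem size_con (b : Bool) : (con b).size ≤ 3 := by
  cases b <;> simp [con, size]

theorem below_con (b : Bool) (t : ℕ) : (con b).Below t := by
  cases b <;> simp [con, Below]

/-- negation -/
def neg (a : Fml) : Fml := nand a tru

@[simp] theorem eval_neg (W : List Bool) (a : Fml) : (neg a).eval W = !a.eval W := by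
  simp [neg, eval]

@[simp] theorem size_neg (a : Fml) : (neg a).size = a.size + 2 := by
  simp [neg, size]

theorem below_neg {a : Fml} {t : ℕ} (h : a.Below t) : (neg a).Below t := ⟨h, trivial⟩

/-- conjunction -/
def and (a b : Fml) : Fml := neg (nand a b)

@[simp] theorem eval_and (W : List Bool) (a b : Fml) :
    (and a b).eval W = (a.eval W && b.eval W) := by
  simp [and, eval]

@[simp] theorem size_and (a b : Fml) : (and a b).size = a.size + b.size + 3 := by
  simp [and, size]

theorem below_and {a b : Fml} {t : ℕ} (ha : a.Below t) (hb : b.Below t) : (and a b).Below t :=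
  below_neg ⟨ha, hb⟩

/-- disjunction -/
def or (a b : Fml) : Fml := nand (neg a) (neg b)

@[simp] theorem eval_or (W : List Bool) (a b : Fml) :
    (or a b).eval W = (a.eval W || b.eval W) := by
  simp [or, eval]

@[simp] theorem size_or (a b : Fml) : (or a b).size = a.size + b.size + 5 := by
  simp only [or, size, size_neg]; omega

theorem below_or {a b : Fml} {t : ℕ} (ha : a.Below t) (hb : b.Below t) : (or a b).Below t :=
  ⟨below_neg ha, below_neg hb⟩

/-- a literal: bit `i` is `b` -/
def lit (i : ℕ) (b : Bool) : Fml := if b = true then var i else neg (var i)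

@[simp] theorem eval_lit (W : List Bool) (i : ℕ) (b : Bool) :
    (lit i b).eval W = (W.getD i false == b) := by
  cases b <;> simp [lit, eval]

theorem size_lit (i : ℕ) (b : Bool) : (lit i b).size ≤ 3 := by
  cases b <;> simp [lit, size]

theorem below_lit {i : ℕ} {b : Bool} {t : ℕ} (h : i < t) : (lit i b).Below t := by
  cases b
  · exact ⟨h, trivial⟩
  · exact h

/-- equality of two bits given by formulas -/
def iff (a b : Fml) : Fml := or (and a b) (and (neg a) (neg b))

@[simp] theorem eval_iff (W : List Bool) (a b : Fml) :
    (iff a b).eval W = (a.eval W == b.eval W) := by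
  simp only [iff, eval_or, eval_and, eval_neg]
  cases a.eval W <;> cases b.eval W <;> rfl

@[simp] theorem size_iff (a b : Fml) : (iff a b).size = 2 * a.size + 2 * b.size + 15 := by
  simp only [iff, size_or, size_and, size_neg]; omega

theorem below_iff {a b : Fml} {t : ℕ} (ha : a.Below t) (hb : b.Below t) : (iff a b).Below t :=
  below_or (below_and ha hb) (below_and (below_neg ha) (below_neg hb))

/-- if `c` then `a` else `b` -/
def ite (c a b : Fml) : Fml := or (and c a) (and (neg c) b)

@[simp] theorem eval_ite (W : List Bool) (c a b : Fml) :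
    (ite c a b).eval W = if c.eval W = true then a.eval W else b.eval W := by
  simp only [ite, eval_or, eval_and, eval_neg]
  cases c.eval W <;> simp

@[simp] theorem size_ite (c a b : Fml) :
    (ite c a b).size = 2 * c.size + a.size + b.size + 13 := by
  simp only [ite, size_or, size_and, size_neg]; omega

theorem below_ite {c a b : Fml} {t : ℕ} (hc : c.Below t) (ha : a.Below t) (hb : b.Below t) :
    (ite c a b).Below t :=
  below_or (below_and hc ha) (below_and (below_neg hc) hb)

/-! ### lists -/

/-- disjunction of a list -/
def any : List Fml → Fml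
  | [] => con false
  | a :: l => or a (any l)

@[simp] theorem eval_any (W : List Bool) (l : List Fml) :
    (any l).eval W = l.any fun φ => φ.eval W := by
  induction l with
  | nil => simp [any]
  | cons a l ih => simp [any, ih]

theorem size_any (l : List Fml) (m : ℕ) (h : ∀ φ ∈ l, φ.size ≤ m) :
    (any l).size ≤ l.length * (m + 5) + 3 := by
  induction l with
  | nil => simpa [any] using size_con false
  | cons a l ih =>
    have h1 := h a (by simp)
    have h2 := ih fun φ hφ => h φ (by simp [hφ])
    simp only [any, size_or, List.length_cons, Nat.add_mul, one_mul]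
    omega

theorem below_any {l : List Fml} {t : ℕ} (h : ∀ φ ∈ l, φ.Below t) : (any l).Below t := by
  induction l with
  | nil => exact below_con _ _
  | cons a l ih => exact below_or (h a (by simp)) (ih fun φ hφ => h φ (by simp [hφ]))

/-- conjunction of a list -/
def all : List Fml → Fml
  | [] => tru
  | a :: l => and a (all l)

@[simp] theorem eval_all (W : List Bool) (l : List Fml) :
    (all l).eval W = l.all fun φ => φ.eval W := by
  induction l with
  | nil => simp [all, eval]
  | cons a l ih => simp [all, ih]

theorem size_all (l : List Fml) (m : ℕ) (h : ∀ φ ∈ l, φ.size ≤ m) :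
    (all l).size ≤ l.length * (m + 3) + 1 := by
  induction l with
  | nil => simp [all, size]
  | cons a l ih =>
    have h1 := h a (by simp)
    have h2 := ih fun φ hφ => h φ (by simp [hφ])
    simp only [all, size_and, List.length_cons, Nat.add_mul, one_mul]
    omega

theorem below_all {l : List Fml} {t : ℕ} (h : ∀ φ ∈ l, φ.Below t) : (all l).Below t := by
  induction l with
  | nil => exact trivial
  | cons a l ih => exact below_and (h a (by simp)) (ih fun φ hφ => h φ (by simp [hφ]))

/-- the bits `vs` are the constants `bs` (lists of the same length) -/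
def eqC : List ℕ → List Bool → Fml
  | i :: vs, b :: bs => and (lit i b) (eqC vs bs)
  | _, _ => tru

theorem eval_eqC (W : List Bool) : ∀ (vs : List ℕ) (bs : List Bool), vs.length = bs.length →
    ((eqC vs bs).eval W = true ↔ vs.map (fun i => W.getD i false) = bs)
  | [], [], _ => by simp [eqC, eval]
  | i :: vs, b :: bs, h => by
    have ih := eval_eqC W vs bs (by simpa using h)
    simp only [eqC, eval_and, eval_lit, Bool.and_eq_true, beq_iff_eq, List.map_cons,
      List.cons.injEq, ih]

theorem size_eqC : ∀ (vs : List ℕ) (bs : List Bool), (eqC vs bs).size ≤ 6 * vs.length + 1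
  | [], _ => by simp [eqC, size]
  | _ :: _, [] => by simp [eqC, size]
  | i :: vs, b :: bs => by
    have ih := size_eqC vs bs
    have h1 := size_lit i b
    simp only [eqC, size_and, List.length_cons]
    omega

theorem below_eqC {t : ℕ} : ∀ (vs : List ℕ) (bs : List Bool), (∀ i ∈ vs, i < t) →
    (eqC vs bs).Below t
  | [], _, _ => trivial
  | _ :: _, [], _ => trivial
  | i :: vs, b :: bs, h =>
    below_and (below_lit (h i (by simp))) (below_eqC vs bs fun j hj => h j (by simp [hj]))

/-- the bits `vs` and the bits `us` are equal (lists of the same length) -/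
def eqV : List ℕ → List ℕ → Fml
  | i :: vs, j :: us => and (iff (var i) (var j)) (eqV vs us)
  | _, _ => tru

theorem eval_eqV (W : List Bool) : ∀ (vs us : List ℕ), vs.length = us.length →
    ((eqV vs us).eval W = true ↔
      vs.map (fun i => W.getD i false) = us.map (fun i => W.getD i false))
  | [], [], _ => by simp [eqV, eval]
  | i :: vs, j :: us, h => by
    have ih := eval_eqV W vs us (by simpa using h)
    simp only [eqV, eval_and, eval_iff, Bool.and_eq_true, beq_iff_eq, List.map_cons,
      List.cons.injEq, ih]
    rfl

theorem size_eqV : ∀ (vs us : List ℕ), (eqV vs us).size ≤ 22 * vs.length + 1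
  | [], _ => by simp [eqV, size]
  | _ :: _, [] => by simp [eqV, size]
  | i :: vs, j :: us => by
    have ih := size_eqV vs us
    simp only [eqV, size_and, size_iff, List.length_cons, size]
    omega

theorem below_eqV {t : ℕ} : ∀ (vs us : List ℕ), (∀ i ∈ vs, i < t) → (∀ i ∈ us, i < t) →
    (eqV vs us).Below t
  | [], _, _, _ => trivial
  | _ :: _, [], _, _ => trivial
  | i :: vs, j :: us, h, h' =>
    below_and (below_iff (h i (by simp)) (h' j (by simp)))
      (below_eqV vs us (fun j hj => h j (by simp [hj])) fun j hj => h' j (by simp [hj]))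

/-! ### substitution -/

/-- replace the bit `i` by the formula `f i` -/
def subst (f : ℕ → Fml) : Fml → Fml
  | .tru => .tru
  | .var i => f i
  | .nand a b => .nand (subst f a) (subst f b)

/-- value of a substitution, if the formulas `f i` have the values of the bits of `W'` -/
theorem eval_subst {W W' : List Bool} {f : ℕ → Fml} {t : ℕ}
    (h : ∀ i < t, (f i).eval W = W'.getD i false) :
    ∀ {φ : Fml}, φ.Below t → (subst f φ).eval W = φ.eval W'
  | .tru, _ => rfl
  | .var i, hφ => h i hφ
  | .nand a b, hφ => by
    show (!((subst f a).eval W && (subst f b).eval W)) = !(eval W' a && eval W' b)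
    rw [eval_subst h hφ.1, eval_subst h hφ.2]

theorem size_subst {f : ℕ → Fml} {m t : ℕ} (hm : 1 ≤ m) (h : ∀ i < t, (f i).size ≤ m) :
    ∀ {φ : Fml}, φ.Below t → (subst f φ).size ≤ m * φ.size
  | .tru, _ => by simp only [subst, size]; omega
  | .var i, hφ => by simpa [subst, size] using h i hφ
  | .nand a b, hφ => by
    have h1 := size_subst hm h hφ.1
    have h2 := size_subst hm h hφ.2
    simp only [subst, size, Nat.mul_add, mul_one]
    omega

theorem below_subst {f : ℕ → Fml} {t t' : ℕ} (h : ∀ i < t, (f i).Below t') :
    ∀ {φ : Fml}, φ.Below t → (subst f φ).Below t'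
  | .tru, _ => trivial
  | .var i, hφ => h i hφ
  | .nand _ _, hφ => ⟨below_subst h hφ.1, below_subst h hφ.2⟩

end Fml

/-! ## Programs of formulas -/

/-- gates for formulas that are evaluated at the same time -/
theorem foldl_fml (O : CK.Lang) (ch : List (List Bool) → List Bool → Bool) (fs : List Fml)
    (W : List Bool) (qs : List (List Bool)) (h : ∀ φ ∈ fs, φ.Below W.length) :
    (fs.map Gate.fml).foldl (gstep O ch) (W, qs) = (W ++ fs.map (fun φ => φ.eval W), qs) := by
  have key : ∀ (fs : List Fml) (U : List Bool), (∀ φ ∈ fs, φ.Below W.length) →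
      (fs.map Gate.fml).foldl (gstep O ch) (W ++ U, qs) =
        (W ++ U ++ fs.map (fun φ => φ.eval W), qs) := by
    intro fs
    induction fs with
    | nil => intro U _; simp
    | cons φ fs ih =>
      intro U h
      have h1 : φ.Below W.length := h φ (by simp)
      have h2 := ih (U ++ [φ.eval W]) (fun ψ hψ => h ψ (by simp [hψ]))
      simp only [List.map_cons, List.foldl_cons, gstep]
      rw [Fml.eval_append h1, List.append_assoc, h2]
      simp
  have := key fs [] h
  simpa using this

/-- size of a list of gates -/
def gsz (gs : List Gate) : ℕ := (gs.map Gate.size).sum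

@[simp] theorem gsz_nil : gsz [] = 0 := rfl
@[simp] theorem gsz_cons (g : Gate) (gs : List Gate) : gsz (g :: gs) = g.size + gsz gs := by
  simp [gsz]
@[simp] theorem gsz_append (gs gs' : List Gate) : gsz (gs ++ gs') = gsz gs + gsz gs' := by
  simp [gsz]

theorem gate_size_pos (g : Gate) : 1 ≤ g.size := by
  cases g <;> simp [Gate.size]

theorem length_le_gsz (gs : List Gate) : gs.length ≤ gsz gs := by
  induction gs with
  | nil => simp
  | cons g gs ih =>
    have := gate_size_pos g
    simp only [List.length_cons, gsz_cons]
    omega

theorem gsz_fml (fs : List Fml) (m : ℕ) (h : ∀ φ ∈ fs, φ.size ≤ m) :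
    gsz (fs.map Gate.fml) ≤ fs.length * (m + 1) := by
  induction fs with
  | nil => simp
  | cons φ fs ih =>
    have h1 := h φ (by simp)
    have h2 := ih fun ψ hψ => h ψ (by simp [hψ])
    simp only [List.map_cons, gsz_cons, Gate.size, List.length_cons, Nat.add_mul, one_mul]
    omega

end Pool.Agent.ABO
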