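import Pool.Agent.Lib_helper74.IS.All
import Pool.Agent.Lib_helper27.ABO.B.AD
import Pool.Agent.Lib_helper27.ABO.B.AI
import Pool.Agent.Lib_helper27.ABO.B.AK
import Pool.Agent.Lib_helper27.ABO.B.BG
import Pool.Agent.Lib_helper27.ABO.B.BV1
import Pool.Agent.Lib_helper27.ABO.B.BV2
import Pool.Agent.Lib_helper27.ABO.B.CA1
import Pool.Agent.Lib_helper27.ABO.B.CA2
import Pool.Agent.Lib_helper27.ABO.B.CB
import Pool.Agent.Lib_helper27.ABO.B.CC1
import Pool.Agent.Lib_helper27.ABO.B.CC2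
import Pool.Agent.Lib_helper27.ABO.B.CC3
import Pool.Agent.Lib_helper27.ABO.B.DJ
import Pool.Agent.Lib_helper27.ABO.B.DK1
import Pool.Agent.Lib_helper27.ABO.B.DK2
import Pool.Agent.Lib_helper27.ABO.B.DZ
import Pool.Agent.Lib_helper27.ABO.B.GF1
import Pool.Agent.Lib_helper27.ABO.B.GF2
import Pool.Agent.Lib_helper27.ABO.B.HD
import Pool.Agent.Lib_helper27.ABO.B.KD1
import Pool.Agent.Lib_helper27.ABO.B.KD2
import Pool.Agent.Lib_helper27.ABO.B.KS1
import Pool.Agent.Lib_helper27.ABO.B.KS2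
import Pool.Agent.Lib_helper27.ABO.B.LC
import Pool.Agent.Lib_helper27.ABO.B.LV1
import Pool.Agent.Lib_helper27.ABO.B.LV2
import Pool.Agent.Lib_helper27.ABO.B.LV3
import Pool.Agent.Lib_helper27.ABO.B.NA1
import Pool.Agent.Lib_helper27.ABO.B.NA2
import Pool.Agent.Lib_helper27.ABO.B.NB
import Pool.Agent.Lib_helper27.ABO.B.PJ1
import Pool.Agent.Lib_helper27.ABO.B.PJ2
import Pool.Agent.Lib_helper27.ABO.B.RM
import Pool.Agent.Lib_helper27.ABO.B.SM
import Pool.Agent.Lib_helper27.ABO.B.UV1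
import Pool.Agent.Lib_helper27.ABO.B.UV2
import Pool.Agent.Lib_helper27.ABO.B.UW1
import Pool.Agent.Lib_helper27.ABO.B.UW2
import Pool.Agent.Lib_helper27.ABO.B.VW

/-!
# Collapse above every oracle: all blocks together (MP_675993_lc)
-/
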