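import Pool.Agent.Lib_helper27.ABO.All

/-!
# One stage of the construction
-/

set_option autoImplicit false

namespace Pool.Agent.ABO

open Pool.Agent.CK
open Pool.Agent.TD (Str su sj st Act se sm sM sn sD ZSet Z Q unitv Lam KK dd)
open Pool.Agent.TD.IS (PosI Stg uq patchI simI evM icode idec strip ISet posK zs updI PLW PTW
  invTreeW thrX invTab excI LocalWith PolyLocal Cls EL)

theorem Del_step {k n : ℕ} (hk : k < KK n) : Del k n = 4 * Del (k + 1) n := by
  unfold Del
  have h : Lam n + 2 * (KK n - k) = (Lam n + 2 * (KK n - (k + 1))) + 2 := by omega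
  rw [h, pow_add]; ring

theorem Del_mono (k n : ℕ) : Del (k + 1) n ≤ Del k n := by
  unfold Del
  exact Nat.pow_le_pow_right (by norm_num) (by omega)

theorem Del_pos (k n : ℕ) : 1 ≤ Del k n := Nat.one_le_two_pow

theorem uu_anti (k n : ℕ) : uu (k + 1) n ≤ uu k n := by
  have := aa_anti k n
  unfold uu
  omega

theorem thr_mono (P : Par) (k : ℕ) (i : Lvl) : thr P k i ≤ thr P (k + 1) i := by
  unfold thr
  apply mul_le_mul_of_nonneg_right _ (by positivity)
  have h1 : (0 : ℝ) < Del (k + 1) (lev P i) := by exact_mod_cast Del_pos _ _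
  have h2 : (Del (k + 1) (lev P i) : ℝ) ≤ Del k (lev P i) := by exact_mod_cast Del_mono _ _
  have := one_div_le_one_div_of_le h1 h2
  linarith

theorem hits_eq {m : ℕ} (v : X m → Str) {A A' : X m → DT Str} {O O' : Lang}
    (h : ∀ x, (A x).eval O = (A' x).eval O') : hits v A O = hits v A' O' := by
  unfold hits
  simp only [h]

theorem hits_sum {m : ℕ} (v : X m → Str) (A : X m → DT Str) (O : Lang) :
    (hits v A O : ℝ) = ∑ x, ind (((A x).map fun y => y == v x).eval O) := by
  unfold hits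
  rw [Finset.card_filter]
  push_cast
  refine Finset.sum_congr rfl fun x _ => ?_
  rw [DT.eval_map]
  unfold ind
  by_cases h : (A x).eval O = v x
  · rw [if_pos h, if_pos (by simpa using h)]
  · rw [if_neg h, if_neg (by simpa using h)]

/-- the table has only positions that are too long for the level `n` -/
theorem hits_irrel {k n m : ℕ} (h2 : 2 * sj k ≤ su k) (hk : KK n ≤ k) (O : Lang) (T : Z k → Q k)
    (v : X m → Str) (A : X m → DT Str) (hA : ∀ x, (A x).AllQ fun w => w.length ≤ dd n) :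
    hits v A (patchI (stgJ k) O T) = hits v A O := by
  have hlt : dd n < sD k := by
    by_contra hcon
    have := (TD.rel_iff k n).2 (not_lt.1 hcon)
    omega
  apply hits_eq
  intro x
  apply DT.eval_congr _ _ (hA x)
  intro w hw
  cases hp : pj k w with
  | none => simp only [patchI, stgJ, hp]
  | some p =>
    have := pj_len h2 hp
    omega

theorem sM_le_dd {k n : ℕ} (h5 : 5 ≤ sj k) (h2 : 2 * sj k ≤ su k) (hk : k < KK n) :
    sM k ≤ dd n := by
  have h1 := TD.fits k h5 h2
  have h3 := (TD.rel_iff k n).1 hk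
  omega

theorem circF_mono {G : Game} {s s' d d' : ℕ} (hs : s ≤ s') (hd : d ≤ d') :
    CircF G s d ⊆ CircF G s' d' := by
  rintro A ⟨C, hC, rfl⟩
  exact ⟨C, within_mono hC hs hd, rfl⟩

theorem next_inl {P : Par} {t0 : ℕ → ℕ} {n0 N k : ℕ} {Fm : Fam P} (hact : Act t0 k) (n : ℕ) :
    Next P t0 n0 N k Fm (.inl n) =
      (if k < KK n then Sim k n (Fm (.inl n)) else Fm (.inl n)) ∪ Cmp P n0 k Fm n :=
  if_pos hact

theorem mem_next_sim {P : Par} {t0 : ℕ → ℕ} {n0 N k n : ℕ} {Fm : Fam P} (hact : Act t0 k)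
    (hk : k < KK n) {A : X n → DT Str} (hA : A ∈ Sim k n (Fm (.inl n))) :
    A ∈ Next P t0 n0 N k Fm (.inl n) := by
  have e := next_inl (P := P) (n0 := n0) (N := N) (Fm := Fm) hact n
  rw [if_pos hk] at e
  exact e.symm ▸ Or.inl hA

theorem mem_next_irrel {P : Par} {t0 : ℕ → ℕ} {n0 N k n : ℕ} {Fm : Fam P} (hact : Act t0 k)
    (hk : KK n ≤ k) {A : X n → DT Str} (hA : A ∈ Fm (.inl n)) :
    A ∈ Next P t0 n0 N k Fm (.inl n) := by
  have e := next_inl (P := P) (n0 := n0) (N := N) (Fm := Fm) hact n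
  rw [if_neg (by omega)] at e
  exact e.symm ▸ Or.inl hA

theorem mem_next_cmp {P : Par} {t0 : ℕ → ℕ} {n0 N k n : ℕ} {Fm : Fam P} (hact : Act t0 k)
    {A : X n → DT Str} (hA : A ∈ Cmp P n0 k Fm n) : A ∈ Next P t0 n0 N k Fm (.inl n) := by
  have e := next_inl (P := P) (n0 := n0) (N := N) (Fm := Fm) hact n
  exact e.symm ▸ Or.inr hA

theorem mem_next_game {P : Par} {t0 : ℕ → ℕ} {n0 N k j : ℕ} {Fm : Fam P}
    {A : X (P.G j).s → DT Str} (hA : A ∈ GF P N (k + 1) j) :
    A ∈ Next P t0 n0 N k Fm (.inr j) := by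
  obtain ⟨h1, h2⟩ := hA
  exact ⟨h1, circF_mono (Nat.pow_le_pow_right (by norm_num) (uu_anti _ _)) le_rfl h2⟩

/-- the simulations of the adversaries are defeated -/
theorem hits_sim {P : Par} {t0 : ℕ → ℕ} {n0 N k : ℕ} {Fm : Fam P} {S : Sec} {O : Lang}
    (hN : ∀ n, n0 ≤ n → NumN n) (hact : Act t0 k)
    (hG : ∀ j, Fm (.inr j) = GF P N (k + 1) j)
    (hdef : Def P n0 k S O (Next P t0 n0 N k Fm)) (i : Lvl) (hi : n0 ≤ lev P i)
    (hk : k < KK (lev P i)) (A : X (om P i) → DT Str) (hA : A ∈ Fm i) (ρ : List (Z k × Q k))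
    (hρ : ρ.length ≤ ss k (lev P i)) (r : List (Q k)) (hr : r.length = dd (lev P i)) :
    (hits (tgt P S i) (fun x => simI (stgJ k) [] (A x) ρ r) O : ℝ) < thr P k i := by
  cases i with
  | inl n => exact hdef (.inl n) hi _ (mem_next_sim hact hk ⟨A, hA, ρ, hρ, r, hr, rfl⟩)
  | inr j =>
    rw [hG j] at hA
    obtain ⟨h1, C, hC, rfl⟩ := hA
    obtain ⟨D⟩ := exists_descJ k (dd (lev P (.inr j)))
    obtain ⟨C', hC', hev⟩ := lemC (stgJ k) D (P.G j) C _ hC ρ r hr
    have hnum := num_sim (hN _ hi) hk hρ (sM_le_dd hact.1 hact.2.1 hk)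
    have hmem : (fun ω : X (P.G j).s => cTree (P.G j) C' ω.1) ∈ Next P t0 n0 N k Fm (.inr j) :=
      ⟨h1, C', within_mono hC' hnum le_rfl, rfl⟩
    have h2 := hdef (.inr j) hi _ hmem
    have h3 := hits_eq (O := O) (O' := O) (tgt P S (.inr j))
      (A := fun ω : X (P.G j).s => cTree (P.G j) C' ω.1)
      (A' := fun x : X (P.G j).s => simI (stgJ k) [] (cTree (P.G j) C x.1) ρ r)
      (fun x => hev x.1 O)
    exact lt_of_eq_of_lt (by exact_mod_cast h3.symm) h2

theorem tgt_ne {P : Par} (S : Sec) (i : Lvl) (hi : 1 ≤ lev P i) (x : X (om P i)) :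
    tgt P S i x ≠ [] := by
  cases i with
  | inl n =>
    intro h
    have h1 : (S n x).1.length = n := (S n x).2
    have h2 : (S n x).1 = [] := h
    have h3 : 1 ≤ n := hi
    rw [h2] at h1
    simp at h1
    omega
  | inr j => exact List.cons_ne_nil _ _

theorem tgt_length {P : Par} (S : Sec) (i : Lvl) (hi : 1 ≤ lev P i) (x : X (om P i)) :
    (tgt P S i x).length ≤ lev P i := by
  cases i with
  | inl n => exact (S n x).2.le
  | inr j => exact hi

/-- the simulation in terms of truth values -/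
theorem simI_hits {k m : ℕ} (v : X m → Str) (hv : ∀ x, v x ≠ []) (A : X m → DT Str) (x : X m)
    (ρ : List (Z k × Q k)) (r : List (Q k)) :
    simI (stgJ k) false ((A x).map fun y => y == v x) ρ r =
      (simI (stgJ k) [] (A x) ρ r).map fun y => y == v x := by
  rw [TD.IS.simI_map]
  congr 1
  symm
  simp only [beq_eq_false_iff_ne, ne_eq]
  exact fun h => hv x h.symm

/-- Bernoulli -/
theorem two_pow_lt (D c : ℕ) (hD : 1 ≤ D) :
    (2 : ℝ) ^ c < (1 + 1 / (3 * (D : ℝ))) ^ (3 * D * (c + 1)) := by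
  have hDR : (1 : ℝ) ≤ D := by exact_mod_cast hD
  have hpos : (0 : ℝ) < 1 / (3 * D) := by positivity
  have h1 := one_add_mul_le_pow (show (-2 : ℝ) ≤ 1 / (3 * (D : ℝ)) by linarith) (3 * D)
  have h2 : (2 : ℝ) ≤ (1 + 1 / (3 * (D : ℝ))) ^ (3 * D) := by
    refine le_trans ?_ h1
    push_cast
    field_simp
    norm_num
  rw [pow_mul]
  calc (2 : ℝ) ^ c < 2 ^ (c + 1) := pow_lt_pow_right₀ (by norm_num) (Nat.lt_succ_self _)
    _ ≤ _ := pow_le_pow_left₀ (by norm_num) h2 _

/-- the numbers of one level -/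
theorem step_real {v D x M : ℝ} (hv1 : v ≤ 1) (hD : 1 ≤ D) (hM : 0 < M)
    (hx : x ≤ 1 / (4 * D)) :
    (v + 1 / (4 * D)) * M ≤ (v + 1 / D) * M / (1 + 1 / (3 * D)) - M * x := by
  have hD0 : 0 < D := by linarith
  set η := 1 / D with hη
  have hη0 : 0 < η := by positivity
  have hη1 : η ≤ 1 := by
    rw [hη, div_le_one hD0]; exact hD
  have e1 : 1 / (4 * D) = η / 4 := by rw [hη]; field_simp
  have e2 : 1 / (3 * D) = η / 3 := by rw [hη]; field_simp
  rw [e1] at hx
  rw [e1, e2]
  have h1 : (v + η / 2) * M ≤ (v + η) * M / (1 + η / 3) := by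
    rw [le_div_iff₀ (by positivity)]
    have : (v + η / 2) * (1 + η / 3) ≤ v + η := by nlinarith
    calc (v + η / 2) * M * (1 + η / 3) = (v + η / 2) * (1 + η / 3) * M := by ring
      _ ≤ (v + η) * M := mul_le_mul_of_nonneg_right this hM.le
  have h2 : M * x ≤ M * (η / 4) := mul_le_mul_of_nonneg_left hx hM.le
  nlinarith

theorem v0_bounds {P : Par} (hP : P.OK) (i : Lvl) : 0 ≤ v0 P i ∧ v0 P i ≤ 1 := by
  cases i with
  | inl n => exact ⟨le_rfl, zero_le_one⟩
  | inr j => exact ⟨hP.v_nonneg j, hP.v_le j⟩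

theorem step_num {P : Par} (hP : P.OK) {k : ℕ} (i : Lvl) (h16 : 16 ≤ lev P i)
    (hn : lev P i < 3 * sM k) (hk : k < KK (lev P i)) (heps : NN k ≤ 2 ^ (3 * sM k)) :
    thr P k i ≤ thr P (k + 1) i / (1 + 1 / (3 * (Del (k + 1) (lev P i) : ℝ))) -
      2 ^ om P i * (dd (lev P i) * (1 / 2 ^ (3 * sM k) + 1 / (NN k : ℝ))) := by
  have hNN := NN_ge h16 hn
  set n := lev P i with hn'
  have hD : 0 < Del (k + 1) n := Del_pos _ _
  have hDR : (0 : ℝ) < Del (k + 1) n := by exact_mod_cast hD
  have hD1 : (1 : ℝ) ≤ Del (k + 1) n := by exact_mod_cast hD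
  have hd : 0 < dd n := by unfold dd; positivity
  have hdR : (0 : ℝ) < dd n := by exact_mod_cast hd
  have hNNR : (8 : ℝ) * dd n * Del (k + 1) n ≤ NN k := by exact_mod_cast hNN
  have hpos : (0 : ℝ) < 8 * dd n * Del (k + 1) n := by positivity
  have h1 : (1 : ℝ) / NN k ≤ 1 / (8 * dd n * Del (k + 1) n) :=
    one_div_le_one_div_of_le hpos hNNR
  have h2 : (1 : ℝ) / 2 ^ (3 * sM k) ≤ 1 / (8 * dd n * Del (k + 1) n) := by
    apply one_div_le_one_div_of_le hpos
    refine hNNR.trans ?_
    exact_mod_cast heps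
  have h5 : (dd n : ℝ) * (1 / 2 ^ (3 * sM k) + 1 / (NN k : ℝ)) ≤ 1 / (4 * Del (k + 1) n) := by
    calc (dd n : ℝ) * (1 / 2 ^ (3 * sM k) + 1 / (NN k : ℝ))
        ≤ dd n * (1 / (8 * dd n * Del (k + 1) n) + 1 / (8 * dd n * Del (k + 1) n)) := by
          apply mul_le_mul_of_nonneg_left _ hdR.le
          linarith
      _ = 1 / (4 * Del (k + 1) n) := by
          field_simp
          norm_num
  obtain ⟨-, hv1⟩ := v0_bounds hP i
  have h6 := step_real (M := 2 ^ om P i) hv1 hD1 (by positivity) h5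
  unfold thr
  rw [← hn', Del_step hk]
  push_cast
  exact h6

/-- If the whole table fits into the known entries, every table is fine. -/
theorem def_small {P : Par} {t0 : ℕ → ℕ} {n0 N k : ℕ} {Fm : Fam P} {S : Sec} {O : Lang}
    (hN : ∀ n, n0 ≤ n → NumN n) (hact : Act t0 k)
    (hG : ∀ j, Fm (.inr j) = GF P N (k + 1) j)
    (hdef : Def P n0 k S O (Next P t0 n0 N k Fm)) (i : Lvl) (hi : n0 ≤ lev P i)
    (hn : 3 * sM k ≤ lev P i) (hk : k < KK (lev P i)) (T : Z k → Q k)
    (A : X (om P i) → DT Str) (hA : A ∈ Fm i) :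
    (hits (tgt P S i) A (patchI (stgJ k) O T) : ℝ) < thr P (k + 1) i := by
  classical
  let ρ : List (Z k × Q k) := (Finset.univ : Finset (Z k)).toList.map fun z => (z, T z)
  have hρ : ρ.length ≤ ss k (lev P i) := by
    have h1 : ρ.length = Fintype.card (Z k) := by
      simp [ρ]
    rw [h1]
    exact (TD.card_Z k).trans (num_small hn)
  have hlook := fun z => TD.step_lookup T (Finset.univ : Finset (Z k)).toList z (by simp)
  let q0 : Q k := ⟨[], Nat.zero_le _⟩
  have h1 := hits_sim hN hact hG hdef i hi hk A hA ρ hρ (List.replicate (dd (lev P i)) q0)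
    List.length_replicate
  have h2 : hits (tgt P S i)
      (fun x => simI (stgJ k) [] (A x) ρ (List.replicate (dd (lev P i)) q0)) O =
      hits (tgt P S i) A (patchI (stgJ k) O T) :=
    hits_eq _ fun x => TD.IS.simI_full (stgJ k) [] O T (A x) ρ _ hlook
  rw [h2] at h1
  exact h1.trans_le (thr_mono P k i)

/-- The empty table can be simulated. -/
theorem def_const {P : Par} {t0 : ℕ → ℕ} {n0 N k : ℕ} {Fm : Fam P} {S : Sec} {O : Lang}
    (hN : ∀ n, n0 ≤ n → NumN n) (hact : Act t0 k) (hF : Bdd P n0 (k + 1) Fm)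
    (hG : ∀ j, Fm (.inr j) = GF P N (k + 1) j)
    (hdef : Def P n0 k S O (Next P t0 n0 N k Fm)) (i : Lvl) (hi : n0 ≤ lev P i)
    (hk : k < KK (lev P i)) (A : X (om P i) → DT Str) (hA : A ∈ Fm i) :
    (hits (tgt P S i) A (patchI (stgJ k) O fun _ => (⟨[], Nat.zero_le _⟩ : Q k)) : ℝ) <
      thr P (k + 1) i := by
  set q0 : Q k := ⟨[], Nat.zero_le _⟩ with hq0
  have hM : 0 < sM k := by unfold sM; positivity
  have hne : ∀ w l q i, (stgJ k).ps w = some (PosI.inv l q i) → q ≠ q0 := by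
    intro w l q i h hq
    have := pj_inv h
    rw [hq, hq0] at this
    simp at this
    omega
  have h1 := hits_sim hN hact hG hdef i hi hk A hA [] (Nat.zero_le _)
    (List.replicate (dd (lev P i)) q0) List.length_replicate
  have h2 : hits (tgt P S i)
      (fun x => simI (stgJ k) [] (A x) [] (List.replicate (dd (lev P i)) q0)) O =
      hits (tgt P S i) A (patchI (stgJ k) O fun _ => q0) :=
    hits_eq _ fun x => TD.IS.simI_const (stgJ k) [] O q0 hne (A x) [] (dd (lev P i))
      (by intro z q hz; simp at hz) (((hF i hi).2.2 A hA x).1)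
  rw [h2] at h1
  exact h1.trans_le (thr_mono P k i)

/-- One active stage. -/
theorem step_stage {F : ℕ → Lang → Lang} {P : Par} (hP : P.OK) {t0 : ℕ → ℕ} {n0 N k : ℕ}
    {Fm : Fam P} {S : Sec} {Tab : ℕ → Str → Str} (h16 : 16 ≤ n0) (hN : ∀ n, n0 ≤ n → NumN n)
    (hact : Act t0 k) (hK : NumK n0 k) (hF : Bdd P n0 (k + 1) Fm)
    (hG : ∀ j, Fm (.inr j) = GF P N (k + 1) j)
    (hdef : Def P n0 k S (OJ P.R S Tab) (Next P t0 n0 N k Fm)) :
    ∃ T : Z k → Q k, Def P n0 (k + 1) S (OJ P.R S (updI Tab k T)) Fm ∧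
      Goal F S k (OJ P.R S (updI Tab k T)) (updI Tab k T) := by
  classical
  have h5 : 5 ≤ sj k := hact.1
  have h2 : 2 * sj k ≤ su k := hact.2.1
  set O := OJ P.R S Tab with hO
  -- a table for which the levels below `3 * sM k` are fine
  have main : ∀ T : Z k → Q k, (∀ i, n0 ≤ lev P i → lev P i < 3 * sM k → k < KK (lev P i) →
      ∀ A ∈ Fm i, (hits (tgt P S i) A (patchI (stgJ k) O T) : ℝ) < thr P (k + 1) i) →
      Def P n0 (k + 1) S (OJ P.R S (updI Tab k T)) Fm := by
    intro T hT i hi A hA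
    rw [OJ_updI P.R S Tab k T h5]
    by_cases hk : k < KK (lev P i)
    · by_cases hM : lev P i < 3 * sM k
      · exact hT i hi hM hk A hA
      · exact def_small hN hact hG hdef i hi (not_lt.1 hM) hk T A hA
    · rw [hits_irrel h2 (not_lt.1 hk) O T (tgt P S i) A fun x => ((hF i hi).2.2 A hA x).2]
      refine lt_of_lt_of_le ?_ (thr_mono P k i)
      refine hdef i hi A ?_
      cases i with
      | inl n => exact mem_next_irrel hact (not_lt.1 hk) hA
      | inr j =>
        rw [hG j] at hA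
        exact mem_next_game hA
  have hlow : ∀ T : Z k → Q k, ∀ w : Str, w.length < sD k →
      O w = OJ P.R S (updI Tab k T) w :=
    fun T w hw => (OJ_low P.R S Tab k T h5 h2 w hw).symm
  have hlenT : ∀ T : Z k → Q k, ∀ z ∈ ZSet k, (updI Tab k T (se k) z).length ≤ qb k := by
    intro T z hz
    rw [TD.IS.updI_self Tab k T ⟨z, hz⟩]
    exact (T ⟨z, hz⟩).2
  by_cases hcor : CorrW F S k O
  · -- the reduction is correct: hard core
    obtain ⟨Rs, hRs, hRs2⟩ := TD.IS.avoid_card Tab k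
    obtain ⟨ν, hν, hc, hsm, hD⟩ := hardpairA F P n0 k Fm S O hcor Rs hRs
      (fun A hA => by
        have h1 := hdef (.inl (sn k)) hK.hn0 A (mem_next_cmp hact hA)
        have h3 : thr P k (.inl (sn k)) ≤ 2 ^ sn k := by
          unfold thr v0
          rw [zero_add]
          have e1 : (1 : ℝ) ≤ Del k (lev P (.inl (sn k))) := by exact_mod_cast Del_pos _ _
          have e2 : (1 : ℝ) / Del k (lev P (.inl (sn k))) ≤ 1 := by
            rw [div_le_one (by linarith)]; exact e1
          have e3 : (0 : ℝ) < 2 ^ om P (.inl (sn k)) := by positivity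
          calc _ ≤ 1 * (2 : ℝ) ^ om P (.inl (sn k)) := mul_le_mul_of_nonneg_right e2 e3.le
            _ = 2 ^ sn k := by rw [one_mul]; rfl
        have h4 := h1.trans_le h3
        exact_mod_cast h4)
    set κ : Z k → Bool := fun z => EL F (iN (sj k)) O z.1 with hκ
    have hM1 : 1 ≤ sM k := Nat.one_le_two_pow
    have hcZ : (Fintype.card (Z k) : ℝ) ≤ 2 ^ sM k := by exact_mod_cast TD.card_Z k
    have hp3 : (2 : ℝ) ^ sM k * (1 / 2 ^ (4 * sM k)) = 1 / 2 ^ (3 * sM k) := by
      rw [mul_one_div, div_eq_div_iff (by positivity) (by positivity), ← pow_add, one_mul]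
      congr 1
      ring
    -- the levels
    have hfin : {i | lev P i ≤ 3 * sM k + 16}.Finite := (lev_card hP (by omega)).1
    set I : Finset Lvl := hfin.toFinset.filter
      (fun i => n0 ≤ lev P i ∧ lev P i < 3 * sM k ∧ k < KK (lev P i)) with hI
    have hmemI : ∀ i, i ∈ I ↔ n0 ≤ lev P i ∧ lev P i < 3 * sM k ∧ k < KK (lev P i) := by
      intro i
      rw [hI, Finset.mem_filter, Set.Finite.mem_toFinset]
      constructor
      · exact fun h => h.2
      · intro h
        refine ⟨?_, h⟩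
        show lev P i ≤ 3 * sM k + 16
        omega
    obtain ⟨T, hT1, hTinj, hT2⟩ := table_stageW (stgJ k) O ν hν κ (1 / 2 ^ (3 * sM k))
      (1 / (NN k : ℝ)) (1 / 2 ^ (4 * sM k)) (by positivity) (by positivity) (by positivity)
      (by
        intro l q
        calc ∑ z with (stgJ k).ln z = l, ν (κ z) q
            ≤ ∑ z with (stgJ k).ln z = l, (1 : ℝ) / 2 ^ (4 * sM k) :=
              Finset.sum_le_sum fun z _ => hsm _ _
          _ ≤ ∑ z : Z k, (1 : ℝ) / 2 ^ (4 * sM k) := by
              apply Finset.sum_le_sum_of_subset_of_nonneg (Finset.filter_subset _ _)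
              intro z _ _
              positivity
          _ = Fintype.card (Z k) * (1 / 2 ^ (4 * sM k)) := by
              rw [Finset.sum_const, nsmul_eq_mul, Finset.card_univ]
          _ ≤ 2 ^ sM k * (1 / 2 ^ (4 * sM k)) :=
              mul_le_mul_of_nonneg_right hcZ (by positivity)
          _ = 1 / 2 ^ (3 * sM k) := hp3)
      (by
        intro z z' _
        calc ∑ q, ν (κ z) q * ν (κ z') q ≤ ∑ q, ν (κ z) q * (1 / 2 ^ (4 * sM k)) :=
              Finset.sum_le_sum fun q _ => mul_le_mul_of_nonneg_left (hsm _ _) ((hν _).1 q)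
          _ = 1 / 2 ^ (4 * sM k) := by rw [← Finset.sum_mul, (hν _).2, one_mul])
      (by
        have e1 : (Fintype.card (Z k) : ℝ) ^ 2 ≤ (2 ^ sM k) ^ 2 :=
          pow_le_pow_left₀ (by positivity) hcZ 2
        have e2 : ((2 : ℝ) ^ sM k) ^ 2 * (1 / 2 ^ (4 * sM k)) ≤ 1 / 2 := by
          rw [mul_one_div, div_le_div_iff₀ (by positivity) (by positivity), ← pow_mul,
            ← pow_succ, one_mul]
          exact pow_le_pow_right₀ (by norm_num) (by omega)
        exact (mul_le_mul_of_nonneg_right e1 (by positivity)).trans e2)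
      I (Xf := fun i => X (om P i)) (α := fun i => X (om P i) → DT Str) Fm
      (fun i A x => (A x).map fun y => y == tgt P S i x)
      (fun i => 2 ^ aa (k + 1) (lev P i)) (fun i => dd (lev P i) + lev P i + 4)
      (fun i => dd (lev P i))
      (fun i => 3 * Del (k + 1) (lev P i) *
        (2 ^ aa (k + 1) (lev P i) + (dd (lev P i) + lev P i + 4) + 1))
      (fun i => thr P (k + 1) i) (fun i => 1 / (3 * (Del (k + 1) (lev P i) : ℝ)))
      (lev_sum hP I)
      (fun i hi => ⟨(hF i ((hmemI i).1 hi).1).1, (hF i ((hmemI i).1 hi).1).2.1⟩)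
      (by
        intro i hi A hA x
        rw [DT.depth_map]
        exact ((hF i ((hmemI i).1 hi).1).2.2 A hA x).1)
      (fun i _ => by
        have : (0 : ℝ) < Del (k + 1) (lev P i) := by exact_mod_cast Del_pos _ _
        positivity)
      (fun i _ => two_pow_lt _ _ (Del_pos _ _))
      (by
        intro i hi A hA x ρ pre post hρ hpre hpost
        obtain ⟨hi0, hiM, hik⟩ := (hmemI i).1 hi
        have hρ' : ρ.length ≤ ss k (lev P i) := hρ.trans (num_R (hN _ hi0) hik)
        have h1 := hD ⟨A x, tgt P S i x, ρ, pre, post⟩ ⟨i, hi0, hiM, hik, ⟨A, hA, x, rfl⟩,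
          tgt_length S i (by omega) x, hρ', hpre, hpost⟩
        simp only [simI_hits (tgt P S i) (tgt_ne S i (by omega))]
        exact h1)
      (by
        intro i hi A hA ρ r hρ hr
        obtain ⟨hi0, hiM, hik⟩ := (hmemI i).1 hi
        have hρ' : ρ.length ≤ ss k (lev P i) := hρ.trans (num_R (hN _ hi0) hik)
        have h1 := hits_sim hN hact hG hdef i hi0 hik A hA ρ hρ' r hr
        have h3 := step_num hP i (by omega) hiM hik hK.heps
        have h4 : (hits (tgt P S i) (fun x => simI (stgJ k) [] (A x) ρ r) O : ℝ) =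
            ∑ x, ind ((simI (stgJ k) false ((A x).map fun y => y == tgt P S i x) ρ r).eval O) := by
          rw [hits_sum]
          refine Finset.sum_congr rfl fun x _ => ?_
          rw [simI_hits (tgt P S i) (tgt_ne S i (by omega))]
        have hcard : (Fintype.card (X (om P i)) : ℝ) = 2 ^ om P i := by
          rw [TD.card_X]
          norm_num
        rw [hcard, ← h4]
        exact h1.trans_le h3)
    refine ⟨T, main T ?_, ?_⟩
    · intro i hi hM hk A hA
      have h := hT2 i ((hmemI i).2 ⟨hi, hM, hk⟩) A hA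
      rw [← hits_sum] at h
      exact h
    · refine goal_congr h5 h2 (hlow T) (Tab := updI Tab k T) (fun z _ => rfl)
        (fun w _ => rfl) ⟨hlenT T, fun w hw => TD.IS.updI_inv Tab k T w hw, ?_⟩
      intro _ z hz
      have hz1 := hc _ _ (hT1 ⟨z, hz⟩)
      have hz2 := hRs2 _ hz1.2
      rw [TD.IS.updI_self Tab k T ⟨z, hz⟩]
      refine ⟨hz1.1, hz2.1, ?_⟩
      intro z' hz' he
      by_cases hzs : sm k ≤ z'.length + 2
      · have hmem : z' ∈ ZSet k := ⟨hzs, hz'⟩
        rw [TD.IS.updI_self Tab k T ⟨z', hmem⟩] at he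
        have := hTinj (Subtype.ext he)
        exact congrArg Subtype.val this
      · rw [TD.IS.updI_short Tab k T z' (by omega)] at he
        exact absurd he (hz2.2 z' (by omega))
  · -- the reduction is not correct: empty table
    refine ⟨fun _ => ⟨[], Nat.zero_le _⟩, main _ ?_, hlenT _,
      fun w hw => TD.IS.updI_inv Tab k _ w hw, ?_⟩
    · intro i hi hM hk A hA
      exact def_const hN hact hF hG hdef i hi hk A hA
    · intro h
      exact absurd ((corrW_congr h5 h2 (hlow _)).2 h) hcor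

end Pool.Agent.ABO
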