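import Pool.Agent.Lib_helper27.ABO.Base
import Pool.Agent.Lib_helper74.IS.Main

/-!
# The final theorem
-/

set_option autoImplicit false

namespace Pool.Agent.ABO

open Pool.Agent.CK
open Pool.Agent.TD (Str su sj st Act se sm sM sn sD ZSet Z Q unitv Lam KK dd)
open Pool.Agent.TD.IS (PosI Stg uq patchI simI evM icode idec strip ISet posK zs updI PLW PTW
  invTreeW thrX invTab excI LocalWith PolyLocal Cls EL NonuniformTuringReducible PIso RedI
  InEXPpoly XP XP_local exists_XP)

/-- All pairs are reducible with inverse. -/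
theorem redI_of_goals {F : ℕ → Lang → Lang} (hF : ∀ i, PolyLocal (F i)) {R : Lang} {S : Sec}
    {Tab : ℕ → Str → Str} (t0 : ℕ → ℕ) (hlen : ∀ e z, (Tab e z).length ≤ alen e z)
    (hgoal : ∀ k, Act t0 k → Goal F S k (OJ R S Tab) Tab) {A C : Lang}
    (hC : Cls F (OJ R S Tab) C) (hT : NonuniformTuringReducible (OJ R S Tab) (VV S) C)
    (hA : Cls F (OJ R S Tab) A) : RedI (OJ R S Tab) A C := by
  obtain ⟨e, m0, h6, h1, h2, h3, h4⟩ := goals_facts hF t0 hgoal hC hT hA
  refine TD.IS.redI_abs (Te := Tab e) (Ti := Tab (e + 1)) (read_J R S Tab hlen e h6)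
    (read_J R S Tab hlen (e + 1) (by omega)) m0 h1 h2 h3 ?_
  intro z
  have hl : m0 ≤ (ones m0 ++ false :: z).length := by
    simp [ones]
  rw [h4 _ hl, TD.IS.strip_ones]

/-! ### trivial languages -/

theorem run_push (O : Lang) (b : Bool) (x y : Str) :
    run O (Cmd.push 0 b) x y 1 = ([], Function.update (init x y) 0 (b :: x)) := rfl

theorem inNP_const (O : Lang) (b : Bool) : InNP O (fun _ => b) := by
  refine ⟨Cmd.push 0 b, 0, fun x y _ => ?_, fun x => ?_⟩
  · show (run O (Cmd.push 0 b) x y ((x.length + 2) ^ 0)).1 = []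
    rw [pow_zero, run_push]
  · have h : ∀ y : Str, Accepts O (Cmd.push 0 b) x y ((x.length + 2) ^ 0) ↔ b = true := by
      intro y
      unfold Accepts
      rw [pow_zero, run_push]
      simp
    constructor
    · intro hb
      exact ⟨[], Nat.zero_le _, (h []).2 hb⟩
    · rintro ⟨y, -, hy⟩
      exact (h y).1 hy

theorem nonuniform_const (O B : Lang) (b : Bool) :
    NonuniformTuringReducible O (fun _ => b) B := by
  refine ⟨Cmd.push 0 b, 0, fun _ => [], fun n => Nat.zero_le _, fun x => ⟨?_, ?_⟩⟩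
  · show (run _ (Cmd.push 0 b) x _ ((x.length + 2) ^ 0)).1 = []
    rw [pow_zero, run_push]
  · unfold Accepts
    rw [pow_zero, run_push]
    simp

/-- If all languages in `NP` to which `V` is reducible are isomorphic then `V` is not in
`P/poly`. -/
theorem not_ppoly {O V : Lang}
    (h : ∀ C C', InNP O C → InNP O C' → NonuniformTuringReducible O V C →
      NonuniformTuringReducible O V C' → PIso O C C') (hV : InNP O V) (b : Bool) :
    ¬ NonuniformTuringReducible O V (fun _ => b) := by
  intro hb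
  have hVV : NonuniformTuringReducible O V V :=
    TD.IS.nonuniform_of_turing (TD.main_refl O V)
  obtain ⟨f, g, -, -, -, hfg, hA⟩ := h V (fun _ => b) hV (inNP_const O b) hVV hb
  have hVb : V = fun _ => b := funext hA
  have h1 : NonuniformTuringReducible O V (fun _ => !b) := by
    rw [hVb]; exact nonuniform_const O _ b
  obtain ⟨f', g', -, -, -, -, hA'⟩ := h V (fun _ => !b) hV (inNP_const O _) hVV h1
  have h2 := hA' []
  rw [hVb] at h2
  cases b <;> simp at h2

theorem not_inP {O V : Lang} (h : ¬ NonuniformTuringReducible O V (fun _ => false)) :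
    ¬ InP O V := by
  intro hP
  exact h (TD.IS.nonuniform_of_turing
    (CKP.inP_of (CKP.PTime.lift (B := fun _ => false) (CKP.ptime_of_inP hP))))

/-! ### values of games -/

theorem count_le (G : Game) (O : Lang) (C : Circuit) : G.count O C ≤ 2 ^ G.s := by
  rw [count_eq]
  unfold hits
  refine (Finset.card_filter_le _ _).trans ?_
  rw [Finset.card_univ, TD.card_X]

open Classical in
/-- largest number of wins of circuits of size at most `T` -/
noncomputable def bestC (R : Lang) (G : Game) (T : ℕ) : ℕ :=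
  Nat.findGreatest (fun c => ∃ C : Circuit, C.size ≤ T ∧ G.count R C = c) (2 ^ G.s)

theorem le_bestC (R : Lang) (G : Game) (T : ℕ) (C : Circuit) (hC : C.size ≤ T) :
    G.count R C ≤ bestC R G T := by
  classical
  unfold bestC
  exact Nat.le_findGreatest (count_le G R C) ⟨C, hC, rfl⟩

theorem bestC_spec (R : Lang) (G : Game) (T : ℕ) :
    ∃ C : Circuit, C.size ≤ T ∧ G.count R C = bestC R G T := by
  classical
  unfold bestC
  let C0 : Circuit := ⟨[], []⟩
  have h0 : C0.size ≤ T := Nat.zero_le _
  exact Nat.findGreatest_spec (P := fun c => ∃ C : Circuit, C.size ≤ T ∧ G.count R C = c)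
    (count_le G R C0) ⟨C0, h0, rfl⟩

theorem bestC_le (R : Lang) (G : Game) (T : ℕ) : bestC R G T ≤ 2 ^ G.s := by
  obtain ⟨C, -, h⟩ := bestC_spec R G T
  rw [← h]
  exact count_le G R C

/-- the value of the game -/
noncomputable def valG (R : Lang) (G : Game) (T : ℕ) : ℝ := bestC R G T / 2 ^ G.s

theorem valG_nonneg (R : Lang) (G : Game) (T : ℕ) : 0 ≤ valG R G T := by
  unfold valG; positivity

theorem valG_le (R : Lang) (G : Game) (T : ℕ) : valG R G T ≤ 1 := by
  unfold valG
  rw [div_le_one (by positivity)]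
  exact_mod_cast bestC_le R G T

theorem hard_valG (R : Lang) (G : Game) (T : ℕ) : Hard R G T (valG R G T) := by
  intro C hC
  unfold valG
  rw [div_mul_cancel₀ _ (by positivity)]
  exact_mod_cast le_bestC R G T C hC

theorem valG_le_of_hard {R : Lang} {G : Game} {T : ℕ} {v : ℝ} (h : Hard R G T v) :
    valG R G T ≤ v := by
  obtain ⟨C, hC, h1⟩ := bestC_spec R G T
  have h2 := h C hC
  unfold valG
  rw [div_le_iff₀ (by positivity), ← h1]
  exact h2

theorem hard_one (R : Lang) (G : Game) (T : ℕ) : Hard R G T 1 := by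
  intro C _
  rw [one_mul]
  exact_mod_cast count_le G R C

theorem Hard.mono {R : Lang} {G : Game} {T T' : ℕ} {v : ℝ} (h : Hard R G T v) (hT : T' ≤ T) :
    Hard R G T' v := fun C hC => h C (hC.trans hT)

/-- Above every oracle there is one with a single NP-complete language up to isomorphism, and all
games that are hard remain hard. -/
theorem main_ABO (R : Lang) (G : ℕ → Game) (t : ℕ → ℕ) (hs : ∀ j, (G j).s ≤ t j)
    (hfin : ∀ T, {j | t j ≤ T}.Finite) (hcnt : ∀ T, {j | t j ≤ T}.ncard ≤ 2 ^ T)
    (F : ℕ → Lang → Lang) (hF : ∀ i, PolyLocal (F i)) :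
    ∃ H V : Lang,
      InUP (join R H) V ∧ InUP (join R H) (fun x => !V x) ∧ ¬ InP (join R H) V ∧
      ¬ NonuniformTuringReducible (join R H) V (fun _ => false) ∧
      (∀ A, InNP (join R H) A ∨ InEXPpoly (join R H) A ∨ (∃ i, F i (join R H) = A) →
        ManyOneReducible (join R H) A V) ∧
      (∀ C C', (InNP (join R H) C ∨ InEXPpoly (join R H) C ∨ ∃ i, F i (join R H) = C) →
        (InNP (join R H) C' ∨ InEXPpoly (join R H) C' ∨ ∃ i, F i (join R H) = C') →
        NonuniformTuringReducible (join R H) V C → NonuniformTuringReducible (join R H) V C' →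
        PIso (join R H) C C') ∧
      (∀ C C', TuringComplete (join R H) C → TuringComplete (join R H) C' →
        PIso (join R H) C C') ∧
      {j | ¬ ∀ v : ℝ, Hard R (G j) (t j ^ (Nat.log 2 (Nat.log 2 (t j))) ^ 4) v →
        Hard (join R H) (G j) (t j) (v + 1 / t j)}.Finite := by
  classical
  set F' : ℕ → Lang → Lang := fun i => if i.unpair.1 = 0 then F i.unpair.2 else XP i.unpair.2
    with hF'
  have hF'' : ∀ i, PolyLocal (F' i) := by
    intro i
    simp only [hF']
    split_ifs
    · exact hF _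
    · exact XP_local _
  have hcls : ∀ O A, (InNP O A ∨ InEXPpoly O A ∨ ∃ i, F i O = A) → Cls F' O A := by
    rintro O A (h | h | ⟨i, hi⟩)
    · exact Or.inl h
    · obtain ⟨i, hi⟩ := exists_XP h
      refine Or.inr ⟨Nat.pair 1 i, ?_⟩
      simp only [hF', Nat.unpair_pair, one_ne_zero, if_false]
      exact hi
    · refine Or.inr ⟨Nat.pair 0 i, ?_⟩
      simp only [hF', Nat.unpair_pair, if_true]
      exact hi
  -- the data
  obtain ⟨T0, hT0⟩ := kappa_bound
  let P : Par := ⟨R, G, t, fun j => if T0 ≤ t j then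
    valG R (G j) (t j ^ (Nat.log 2 (Nat.log 2 (t j))) ^ 4) else 1⟩
  have hP : P.OK := by
    refine ⟨hs, hfin, hcnt, ?_, ?_, ?_⟩
    · intro j
      show 0 ≤ if T0 ≤ t j then _ else _
      split_ifs
      · exact valG_nonneg _ _ _
      · exact zero_le_one
    · intro j
      show (if T0 ≤ t j then _ else _) ≤ 1
      split_ifs
      · exact valG_le _ _ _
      · exact le_rfl
    · intro j
      show Hard R (G j) (2 ^ (nn (t j) - 2)) (if T0 ≤ t j then _ else _)
      split_ifs with h
      · exact (hard_valG _ _ _).mono (hT0 _ h)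
      · exact hard_one _ _ _
  obtain ⟨t0, n0, S, Tab, hlen, hgoal, hsec⟩ := goals_all F' hP
  have hNP : InNP (OJ R S Tab) (VV S) := by
    obtain ⟨c, k, h1, h2, -⟩ := inUP_VV R S Tab
    exact ⟨c, k, h1, h2⟩
  have hred := fun {A C : Lang} => redI_of_goals (A := A) (C := C) hF'' (R := R) t0 hlen hgoal
  have hiso : ∀ C C', Cls F' (OJ R S Tab) C → Cls F' (OJ R S Tab) C' →
      NonuniformTuringReducible (OJ R S Tab) (VV S) C →
      NonuniformTuringReducible (OJ R S Tab) (VV S) C' → PIso (OJ R S Tab) C C' :=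
    fun C C' hC hC' h h' => TD.IS.iso_of_redI (hred hC' h' hC) (hred hC h hC')
  have hnp := not_ppoly (fun C C' hC hC' h h' => hiso C C' (Or.inl hC) (Or.inl hC') h h') hNP
    false
  refine ⟨orc S Tab, VV S, inUP_VV R S Tab, inUP_compl_VV R S Tab, not_inP hnp, hnp,
    fun A hA => ?_, fun C C' hC hC' h h' => hiso C C' (hcls _ _ hC) (hcls _ _ hC') h h',
    fun C C' hC hC' => hiso C C' (Or.inl hC.1) (Or.inl hC'.1)
      (TD.IS.nonuniform_of_turing (hC.2 _ hNP)) (TD.IS.nonuniform_of_turing (hC'.2 _ hNP)), ?_⟩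
  · exact TD.IS.manyOne_of_redI
      (hred (Or.inl hNP) (TD.IS.nonuniform_of_turing (TD.main_refl _ _)) (hcls _ _ hA))
  · -- the games
    refine (hfin (max T0 (max 1 (dd (n0 + 16))))).subset ?_
    intro j hj
    show t j ≤ _
    by_contra hcon
    rw [not_le] at hcon
    apply hj
    have h1 : T0 ≤ t j := (le_max_left _ _).trans hcon.le
    have h2 : 1 ≤ t j := ((le_max_left _ _).trans (le_max_right _ _)).trans hcon.le
    have h3 : dd (n0 + 16) < t j := lt_of_le_of_lt
      ((le_max_right _ _).trans (le_max_right _ _)) hcon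
    have h4 : n0 ≤ lev P (.inr j) := by
      by_contra hlt
      rw [not_le] at hlt
      have h5 : t j ≤ dd (nn (t j)) := (nn_spec (t j)).2
      have h6 : nn (t j) < n0 := hlt
      have h7 : Lam (nn (t j)) ≤ Lam (n0 + 16) := TD.Lam_mono (nn_spec (t j)).1 (by omega)
      have h8 : dd (nn (t j)) ≤ dd (n0 + 16) := Nat.pow_le_pow_right (by norm_num) h7
      omega
    intro v hv C hC
    have h9 := hsec j h4 h2 C hC
    have h10 : P.v j ≤ v := by
      show (if T0 ≤ t j then _ else _) ≤ v
      rw [if_pos h1]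
      exact valG_le_of_hard hv
    refine h9.trans ?_
    apply mul_le_mul_of_nonneg_right _ (by positivity)
    show P.v j + 1 / (t j : ℝ) ≤ v + 1 / (t j : ℝ)
    linarith

end Pool.Agent.ABO
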