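import Pool.Agent.Lib_helper27.ABO.Iter

/-!
# The base
-/

set_option autoImplicit false

namespace Pool.Agent.ABO

open Pool.Agent.CK
open Pool.Agent.TD (Str su sj st Act se sm sM sn sD ZSet Z Q unitv Lam KK dd)
open Pool.Agent.TD.IS (PosI Stg uq patchI simI evM icode idec strip ISet posK zs updI PLW PTW
  invTreeW thrX invTab excI LocalWith PolyLocal Cls EL)

/-- length of the random strings -/
def LL (Nh : ℕ) : ℕ := ∑ n ∈ Finset.range (Nh + 1), (n + dd n + 2 * Lam n + 2 * KK n + 5)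

theorem LL_ge {n Nh : ℕ} (h : n ≤ Nh) : n + dd n + 2 * Lam n + 2 * KK n + 5 ≤ LL Nh :=
  Finset.single_le_sum (f := fun n => n + dd n + 2 * Lam n + 2 * KK n + 5)
    (fun _ _ => Nat.zero_le _) (Finset.mem_range.2 (by omega))

theorem LL_V {n Nh : ℕ} (h : n ≤ Nh) : 2 ^ n * (dd n + 1) ≤ 2 ^ LL Nh := by
  have h1 := LL_ge h
  have h2 : dd n + 1 ≤ 2 ^ (Lam n + 1) := by
    have : 1 ≤ 2 ^ Lam n := Nat.one_le_two_pow
    unfold dd
    rw [pow_succ]
    omega
  calc 2 ^ n * (dd n + 1) ≤ 2 ^ n * 2 ^ (Lam n + 1) := Nat.mul_le_mul_left _ h2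
    _ = 2 ^ (n + (Lam n + 1)) := (pow_add _ _ _).symm
    _ ≤ 2 ^ LL Nh := Nat.pow_le_pow_right (by norm_num) (by omega)

theorem LL_G {n Nh : ℕ} (h : n ≤ Nh) : 2 * dd n * Del 0 n < 2 ^ LL Nh := by
  have h1 := LL_ge h
  unfold dd Del
  calc 2 * 2 ^ Lam n * 2 ^ (Lam n + 2 * (KK n - 0)) = 2 ^ (1 + Lam n + (Lam n + 2 * KK n)) := by
        rw [Nat.sub_zero, pow_add 2 (1 + Lam n), pow_add 2 1]; norm_num
    _ < 2 ^ LL Nh := Nat.pow_lt_pow_right (by norm_num) (by omega)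

/-- failure at a level -/
noncomputable def failB (P : Par) (L : ℕ) : (i : Lvl) → (X (om P i) → DT Str) →
    (Zs L → X L) → Bool
  | .inl n, A, T => decide (thr P 0 (.inl n) ≤ ∑ x : X n, ind ((gsT x (A x)).eval
      (patchI (stgS L) (OJ P.R sec0 fun _ _ => []) T)))
  | .inr j, A, T => decide (thr P 0 (.inr j) ≤ ∑ x : X (P.G j).s,
      ind (((A x).map fun y => y == [true]).eval
        (patchI (stgS L) (OJ P.R sec0 fun _ _ => []) T)))

theorem hits_gsT (R : Lang) (S : Sec) (Tab : ℕ → Str → Str) {n : ℕ} (A : X n → DT Str) :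
    (hits (fun x => (S n x).1) A (OJ R S Tab) : ℝ) =
      ∑ x : X n, ind ((gsT x (A x)).eval (OJ R S Tab)) := by
  rw [hits_sum]
  refine Finset.sum_congr rfl fun x _ => ?_
  rw [gsT_eval, DT.eval_map]
  congr 1
  by_cases h : (A x).eval (OJ R S Tab) = (S n x).1
  · rw [decide_eq_true h]; simpa using h
  · rw [decide_eq_false h]; simpa using h

/-- the base -/
theorem base {P : Par} (hP : P.OK) (n0 Nh : ℕ) (hN : ∀ n, n0 ≤ n → NumN n) (Fm : Fam P)
    (hB : Bdd P n0 0 Fm)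
    (hG : ∀ j, ∀ A ∈ Fm (.inr j),
      A ∈ CircF (P.G j) (2 ^ uu 0 (lev P (.inr j))) (dd (lev P (.inr j))))
    (hemp : ∀ i, Nh < lev P i → Fm i = ∅) :
    ∃ S : Sec, Def P n0 0 S (OJ P.R S fun _ _ => []) Fm := by
  classical
  set L := LL Nh with hL
  have hμ : IsPD (fun (_ : Zs L) (_ : X L) => (1 : ℝ) / 2 ^ L) := by
    intro z
    refine ⟨fun q => by positivity, ?_⟩
    rw [Finset.sum_const, Finset.card_univ, TD.card_X, nsmul_eq_mul]
    push_cast
    field_simp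
  have hfin : {i | lev P i ≤ Nh + 16}.Finite := (lev_card hP (by omega)).1
  set I : Finset Lvl := hfin.toFinset.filter (fun i => n0 ≤ lev P i ∧ lev P i ≤ Nh) with hI
  have hmemI : ∀ i, i ∈ I ↔ n0 ≤ lev P i ∧ lev P i ≤ Nh := by
    intro i
    rw [hI, Finset.mem_filter, Set.Finite.mem_toFinset]
    constructor
    · exact fun h => h.2
    · intro h
      refine ⟨?_, h⟩
      show lev P i ≤ Nh + 16
      omega
  obtain ⟨T, -, -, hT⟩ := union_boundW hμ I (α := fun i => X (om P i) → DT Str) Fm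
    (fun i A T => failB P L i A T) (fun i => 2 ^ aa 0 (lev P i))
    (fun i => dd (lev P i) + lev P i + 4)
    (fun i hi => ⟨(hB i ((hmemI i).1 hi).1).1, (hB i ((hmemI i).1 hi).1).2.1⟩)
    (by
      intro i hi A hA
      obtain ⟨hi0, hi1⟩ := (hmemI i).1 hi
      cases i with
      | inl n =>
        change n0 ≤ n at hi0
        change n ≤ Nh at hi1
        obtain ⟨h1, h2⟩ := num_baseV (hN n hi0)
        have hdep : ∀ x, (A x).depth ≤ dd n := fun x => ((hB (.inl n) hi0).2.2 A hA x).1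
        refine base_V P.R L n (dd n) (LL_V hi1) A hdep (thr P 0 (.inl n))
          (2 ^ aa 0 n + (dd n + n + 4)) ?_
        have h3 : thr P 0 (.inl n) / 2 = 2 ^ (n - (Lam n + 2 * KK n + 1)) := by
          show ((0 : ℝ) + 1 / (Del 0 n : ℝ)) * 2 ^ n / 2 = _
          have h4 : (2 : ℝ) ^ n = 2 ^ (n - (Lam n + 2 * KK n + 1)) * 2 ^ (Lam n + 2 * KK n + 1) := by
            rw [← pow_add]; congr 1; omega
          have h5 : (Del 0 n : ℝ) = 2 ^ (Lam n + 2 * KK n) := by
            unfold Del; push_cast; rfl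
          rw [h4, h5, zero_add, pow_succ 2 (Lam n + 2 * KK n)]
          field_simp
        rw [h3]
        have h6 : (((2 ^ aa 0 n + (dd n + n + 4) + 1) * (dd n + 1) + dd n + 3 : ℕ) : ℝ) <
            ((2 ^ (n - (Lam n + 2 * KK n + 1)) : ℕ) : ℝ) := by exact_mod_cast h1
        push_cast at h6 ⊢
        exact h6
      | inr j =>
        exact base_G P hP j (lev P (.inr j)) L rfl (hN _ hi0) (LL_G hi1)
          (by have := LL_ge hi1; omega) A (hG j A hA))
    (lev_sum hP I) (fun _ => false)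
    (by
      have : (fun _ : Zs L → X L => ind false) = fun _ => (0 : ℝ) * 1 := by
        funext _; simp [ind]
      rw [this, Pr_mul]
      norm_num)
  refine ⟨secT L T, ?_⟩
  intro i hi A hA
  by_cases hNi : lev P i ≤ Nh
  · have h1 := hT i ((hmemI i).2 ⟨hi, hNi⟩) A hA
    cases i with
    | inl n =>
      have h2 : ¬ (thr P 0 (.inl n) ≤ ∑ x : X n, ind ((gsT x (A x)).eval
        (patchI (stgS L) (OJ P.R sec0 fun _ _ => []) T))) := of_decide_eq_false h1
      rw [OJ_secT, ← hits_gsT, not_le] at h2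
      exact h2
    | inr j =>
      have h2 : ¬ (thr P 0 (.inr j) ≤ ∑ x : X (P.G j).s,
        ind (((A x).map fun y => y == [true]).eval
          (patchI (stgS L) (OJ P.R sec0 fun _ _ => []) T))) := of_decide_eq_false h1
      rw [OJ_secT, not_le] at h2
      have h3 := hits_sum (fun _ : X (P.G j).s => [true]) A (OJ P.R (secT L T) fun _ _ => [])
      exact lt_of_eq_of_lt h3 h2
  · rw [hemp i (not_le.1 hNi)] at hA
    exact absurd hA (Set.notMem_empty _)

/-- The construction up to a horizon `N`. -/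
theorem horizon (F : ℕ → Lang → Lang) {P : Par} (hP : P.OK) {t0 : ℕ → ℕ} {n0 : ℕ}
    (hN : ∀ n, n0 ≤ n → NumN n) (hK : ∀ k, Act t0 k → NumK n0 k) (N : ℕ) :
    ∃ (S : Sec) (Tab : ℕ → Str → Str), (∀ e z, (Tab e z).length ≤ alen e z) ∧
      (∀ k < N, Act t0 k → Goal F S k (OJ P.R S Tab) Tab) ∧
      ∀ j, n0 ≤ lev P (.inr j) → lev P (.inr j) ≤ N → 1 ≤ P.t j → SecAt P S Tab j := by
  have h16 : 16 ≤ n0 := (hN n0 le_rfl).h16
  obtain ⟨Nh, hNh⟩ := cl_empty P t0 n0 N N
  have hB0 : Bdd P n0 0 (Cl P t0 n0 N N) := by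
    have := bdd_cl (N := N) hP h16 hN hK N le_rfl
    rwa [Nat.sub_self] at this
  obtain ⟨S, hS⟩ := base hP n0 Nh hN _ hB0 (by
    intro j A hA
    rw [cl_game, Nat.sub_self] at hA
    exact hA.2) hNh
  obtain ⟨Tab, h1, h2, h3⟩ := iterate (F := F) hP h16 hN hK S hS N le_rfl
  refine ⟨S, Tab, h3, h2, ?_⟩
  intro j hj hjN ht C hC
  obtain ⟨C', hC', hw⟩ := exists_within C (P.t j) hC
  have hdd : P.t j ≤ dd (lev P (.inr j)) := (nn_spec (P.t j)).2
  have hmem : (fun ω : X (P.G j).s => cTree (P.G j) C' ω.1) ∈ Cl P t0 n0 N (N - N) (.inr j) := by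
    rw [cl_game]
    refine ⟨hjN, C', within_mono hC' ?_ hdd, rfl⟩
    have := num_fin (hN _ hj) (N - (N - N))
    omega
  have h4 := h1 (.inr j) hj _ hmem
  have h5 : (P.G j).count (OJ P.R S Tab) C =
      hits (tgt P S (.inr j)) (fun ω : X (P.G j).s => cTree (P.G j) C' ω.1) (OJ P.R S Tab) := by
    rw [count_eq]
    exact hits_eq _ fun ω => by rw [cTree_eval, cTree_eval, hw]
  rw [h5]
  refine h4.le.trans ?_
  show (P.v j + 1 / (Del N (lev P (.inr j)) : ℝ)) * 2 ^ (P.G j).s ≤ _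
  apply mul_le_mul_of_nonneg_right _ (by positivity)
  have h6 : P.t j ≤ Del N (lev P (.inr j)) := by
    refine hdd.trans ?_
    unfold dd Del
    exact Nat.pow_le_pow_right (by norm_num) (Nat.le_add_right _ _)
  have h7 : (0 : ℝ) < P.t j := by exact_mod_cast ht
  have h8 : (P.t j : ℝ) ≤ Del N (lev P (.inr j)) := by exact_mod_cast h6
  have := one_div_le_one_div_of_le h7 h8
  linarith

/-- The limit. -/
theorem goals_all (F : ℕ → Lang → Lang) {P : Par} (hP : P.OK) :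
    ∃ (t0 : ℕ → ℕ) (n0 : ℕ) (S : Sec) (Tab : ℕ → Str → Str),
      (∀ e z, (Tab e z).length ≤ alen e z) ∧
      (∀ k, Act t0 k → Goal F S k (OJ P.R S Tab) Tab) ∧
      ∀ j, n0 ≤ lev P (.inr j) → 1 ≤ P.t j → SecAt P S Tab j := by
  obtain ⟨n0, hN⟩ := exists_n0
  obtain ⟨t0, hK⟩ := exists_t0 n0
  have hor := horizon F hP hN hK
  choose Ss Ts h1 h2 h3 using hor
  obtain ⟨S, Tab, hlen, hag⟩ := compactness Ss Ts h1
  refine ⟨t0, n0, S, Tab, hlen, ?_, ?_⟩
  · intro k hact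
    obtain ⟨b, hb⟩ := goal_agree F P.R k hact.1 hact.2.1
    obtain ⟨N, hbN, hN'⟩ := hag (max b (k + 1))
    have hag' : Agree b S (Ss N) Tab (Ts N) := by
      refine ⟨fun n hn => hN'.1 n (hn.trans (le_max_left _ _)), fun e he z hz =>
        hN'.2 e (he.trans (le_max_left _ _)) z (hz.trans (le_max_left _ _))⟩
    exact hb _ _ _ _ hag' (h2 N k (by have := le_max_right b (k + 1); omega) hact)
  · intro j hj ht
    obtain ⟨b, hb⟩ := sec_agree P j
    obtain ⟨N, hbN, hN'⟩ := hag (max b (lev P (.inr j)))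
    have hag' : Agree b S (Ss N) Tab (Ts N) := by
      refine ⟨fun n hn => hN'.1 n (hn.trans (le_max_left _ _)), fun e he z hz =>
        hN'.2 e (he.trans (le_max_left _ _)) z (hz.trans (le_max_left _ _))⟩
    exact hb _ _ _ _ hag' (h3 N j hj (by have := le_max_right b (lev P (.inr j)); omega) ht)

end Pool.Agent.ABO
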