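import Pool.Agent.Lib_helper27.ABO.Notions
import Pool.Agent.Lib_helper74.IS.Defs

/-!
# Common definitions: collapse above every oracle (MP_675993_lc)

Paper: `C2_Paper_helper27.md`.
-/

set_option autoImplicit false

namespace Pool.Agent.ABO

open Pool.Agent.CK
open Pool.Agent.TD (Str su sj st Act se sm sM sn sD ZSet Z Q unitv Lam KK dd)
open Pool.Agent.TD.IS (PosI Stg uq patchI simI evM icode idec strip ISet posK zs updI PLW PTW
  invTreeW thrX invTab excI LocalWith PolyLocal Cls EL)

/-- length bound for questions -/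
abbrev qb (k : ℕ) : ℕ := TD.qb k

/-! ## Circuits -/

/-- all bits in the formula have numbers below `t` -/
def Fml.Below (t : ℕ) : Fml → Prop
  | .tru => True
  | .var i => i < t
  | .nand a b => Fml.Below t a ∧ Fml.Below t b

/-- all bits have numbers below `t` -/
def Gate.Below (t : ℕ) : Gate → Prop
  | .fml φ => φ.Below t
  | .ask l => ∀ i ∈ l, i < t
  | .chal l => ∀ i ∈ l, i < t

/-- question to the oracle? -/
def Gate.isAsk : Gate → Bool
  | .ask _ => true
  | _ => false

/-- number of questions to the oracle -/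
def asks (l : List Gate) : ℕ := l.countP Gate.isAsk

/-- all questions to the oracle have length at most `d` -/
def Lens (d : ℕ) (gs : List Gate) : Prop := ∀ l : List ℕ, Gate.ask l ∈ gs → l.length ≤ d

/-- circuits of size `s` with at most `d` questions to the oracle, of length at most `d` -/
structure Circuit.Within (C : Circuit) (s d : ℕ) : Prop where
  size : C.size ≤ s
  asks : asks C.gates ≤ d
  lens : Lens d C.gates
  below : ∀ g ∈ C.gates, g.Below s
  outb : ∀ i ∈ C.out, i < s

/-- the decision tree of a list of gates -/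
def gTree (ch : List Str → Str → Bool) :
    List Gate → (List Bool × List Str) → DT (List Bool × List Str)
  | [], s => DT.leaf s
  | .ask l :: gs, s => DT.node (sel s.1 l) (gTree ch gs (s.1 ++ [false], s.2))
      (gTree ch gs (s.1 ++ [true], s.2))
  | .fml φ :: gs, s => gTree ch gs (s.1 ++ [φ.eval s.1], s.2)
  | .chal l :: gs, s => gTree ch gs (s.1 ++ [ch s.2 (sel s.1 l)], s.2 ++ [sel s.1 l])

/-- the decision tree of a circuit in a game, for the random bits `ω`; value `[true]`: won -/
def cTree (G : Game) (C : Circuit) (ω : Str) : DT Str :=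
  (gTree (G.ch ω) C.gates ([], [])).map fun s => [G.win ω s.2 (sel s.1 C.out)]

/-- adversaries given by circuits -/
def CircF (G : Game) (s d : ℕ) : Set (X G.s → DT Str) :=
  {A | ∃ C : Circuit, C.Within s d ∧ A = fun ω => cTree G C ω.1}

/-- Formulas for the positions of a stage, for questions of length `l ≤ d`: they have size at most
`m` and use the bits `0, ..., l - 1` of the question; `matF` and `rzF` also use the `B` bits of the
code of an entry, with the numbers `l, ..., l + B - 1`. -/
structure Desc {Zt Qt ι : Type} (G : Stg Zt Qt ι) (d m B : ℕ) where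
  /-- the question is about an entry -/
  dirF : ℕ → Fml
  /-- the question is an inverse question -/
  invF : ℕ → Fml
  /-- code of the entry -/
  rep : ℕ → List Fml
  /-- answer if the value of the entry is `q` -/
  rdF : ℕ → Qt → Fml
  /-- the coded entry has the length in the inverse question, and `q` is its value -/
  matF : ℕ → Qt → Fml
  /-- answer to the inverse question, if it is about the coded entry -/
  rzF : ℕ → Fml
  /-- answer to the inverse question, if there is no such entry -/
  rz0F : ℕ → Fml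
  /-- the code -/
  code : Zt → List Bool
  inj : ∀ w : Str, w.length ≤ d → ∀ z i, G.ps w = some (PosI.dir z i) →
    ∀ z', code z' = code z → z' = z
  code_len : ∀ z, (code z).length = B
  rep_len : ∀ l, (rep l).length = B
  dirF_eval : ∀ w : Str, w.length ≤ d →
    ((dirF w.length).eval w = true ↔ ∃ z i, G.ps w = some (PosI.dir z i))
  invF_eval : ∀ w : Str, w.length ≤ d →
    ((invF w.length).eval w = true ↔ ∃ l q i, G.ps w = some (PosI.inv l q i))
  rep_eval : ∀ w : Str, w.length ≤ d → ∀ z i, G.ps w = some (PosI.dir z i) →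
    (rep w.length).map (fun φ => φ.eval w) = code z
  rdF_eval : ∀ w : Str, w.length ≤ d → ∀ z i, G.ps w = some (PosI.dir z i) → ∀ q,
    (rdF w.length q).eval w = G.rd q i
  matF_eval : ∀ w : Str, w.length ≤ d → ∀ l q i, G.ps w = some (PosI.inv l q i) → ∀ z q',
    ((matF w.length q').eval (w ++ code z) = true ↔ G.ln z = l ∧ q' = q)
  rzF_eval : ∀ w : Str, w.length ≤ d → ∀ l q i, G.ps w = some (PosI.inv l q i) → ∀ z,
    (rzF w.length).eval (w ++ code z) = G.rz (some z) i
  rz0F_eval : ∀ w : Str, w.length ≤ d → ∀ l q i, G.ps w = some (PosI.inv l q i) →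
    (rz0F w.length).eval w = G.rz none i
  dirF_size : ∀ l ≤ d, (dirF l).size ≤ m ∧ (dirF l).Below l
  invF_size : ∀ l ≤ d, (invF l).size ≤ m ∧ (invF l).Below l
  rep_size : ∀ l ≤ d, ∀ φ ∈ rep l, φ.size ≤ m ∧ φ.Below l
  rdF_size : ∀ l ≤ d, ∀ q, (rdF l q).size ≤ m ∧ (rdF l q).Below l
  matF_size : ∀ l ≤ d, ∀ q, (matF l q).size ≤ m ∧ (matF l q).Below (l + B)
  rzF_size : ∀ l ≤ d, (rzF l).size ≤ m ∧ (rzF l).Below (l + B)
  rz0F_size : ∀ l ≤ d, (rz0F l).size ≤ m ∧ (rz0F l).Below l

/-! ## Runs with memory -/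

section mem

variable {Zt Qt ι : Type} [DecidableEq Zt]

/-- The answer to the question `w` if the entries `ρ` are known and new entries are taken from `r`,
and the new memory. -/
noncomputable def mans (G : Stg Zt Qt ι) (O : Lang) (w : Str) (ρ : List (Zt × Qt)) (r : List Qt) :
    Bool × (List (Zt × Qt) × List Qt) :=
  match G.ps w with
  | none => (O w, (ρ, r))
  | some (PosI.dir z i) => match ρ.lookup z with
    | some q => (G.rd q i, (ρ, r))
    | none => match r with
      | [] => (false, (ρ, []))
      | q :: r => (G.rd q i, ((z, q) :: ρ, r))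
  | some (PosI.inv l q i) => (G.rz (uq fun z => G.ln z = l ∧ ρ.lookup z = some q) i, (ρ, r))

/-- One gate, with memory (known entries, new entries). -/
noncomputable def mstep (G : Stg Zt Qt ι) (O : Lang) (ch : List Str → Str → Bool)
    (s : (List Bool × List Str) × (List (Zt × Qt) × List Qt)) :
    Gate → (List Bool × List Str) × (List (Zt × Qt) × List Qt)
  | .ask l => ((s.1.1 ++ [(mans G O (sel s.1.1 l) s.2.1 s.2.2).1], s.1.2),
      (mans G O (sel s.1.1 l) s.2.1 s.2.2).2)
  | .fml φ => (gstep O ch s.1 (.fml φ), s.2)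
  | .chal l => (gstep O ch s.1 (.chal l), s.2)

/-- Memory in a circuit: `d` slots of `B + 1` bits from the number `b` on.  Slot `u` tells whether it
is used, and the code of the `u`-th new entry. -/
def Slots {G : Stg Zt Qt ι} {d m B : ℕ} (D : Desc G d m B) (b : ℕ) (W : List Bool)
    (zs : List Zt) : Prop :=
  ∀ u < d, W.getD (b + u * (B + 1)) false = decide (u < zs.length) ∧
    ∀ z, zs[u]? = some z → ∀ i < B,
      W.getD (b + u * (B + 1) + 1 + i) false = (D.code z).getD i false

end mem

/-- cost of the simulation of one question -/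
def cst (d m B s : ℕ) : ℕ := 512 * (m + 1) * (B + 1) * (s + d + 1)

/-! ## The oracle -/

/-- secrets: a function from `{0,1}^n` to `{0,1}^n` for every `n` -/
abbrev Sec : Type := ∀ n : ℕ, X n → X n

/-- the secret of a string -/
def sv (S : Sec) (x : Str) : Str := (S x.length ⟨x, rfl⟩).1

/-- the value of the entry `(e, z)`: for `e = 1` and `z = x y`, `|x| = |y|`, the bit `y = S x` -/
def val (S : Sec) (Tab : ℕ → Str → Str) (e : ℕ) (z : Str) : Str :=
  if e = 1 then (if z.length = 2 * (z.length / 2) then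
    [decide (sv S (z.take (z.length / 2)) = z.drop (z.length / 2))] else []) else Tab e z

/-- the oracle with secrets `S` and tables `Tab` -/
noncomputable def orc (S : Sec) (Tab : ℕ → Str → Str) : Lang := fun w =>
  match tdec w with
  | none => false
  | some p => bit (val S Tab p.1.1 p.1.2) p.2

/-- the oracle above `R` -/
noncomputable def OJ (R : Lang) (S : Sec) (Tab : ℕ → Str → Str) : Lang := join R (orc S Tab)

/-- the secret language: `x u`, `|x| = |u|`, such that `S x` and `u` have a common `1` -/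
def VV (S : Sec) : Lang := fun w =>
  if w.length = 2 * (w.length / 2) then
    (List.zipWith (fun a b => a && b) (sv S (w.take (w.length / 2)))
      (w.drop (w.length / 2))).any id
  else false

/-- positions of the stage in the joined oracle -/
noncomputable def pj (k : ℕ) : Str → Option (PosI (Z k) (Q k) (ℕ × Bool))
  | true :: w => posK k w
  | _ => none

/-- the data of the stage `k` -/
noncomputable def stgJ (k : ℕ) : Stg (Z k) (Q k) (ℕ × Bool) where
  ps := pj k
  ln z := z.1.length
  rd q i := bit q.1 i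
  rz o i := bit (zs o) i

/-- code of an entry -/
def cdJ (k : ℕ) (z : Z k) : List Bool :=
  z.1.reverse ++ true :: List.replicate (sM k - 1 - z.1.length) false

/-! ## The secrets as a stage -/

/-- strings up to the length `L` -/
abbrev Zs (L : ℕ) : Type := {x : Str // x.length ≤ L}

theorem finite_Zs (L : ℕ) : Finite (Zs L) := (List.finite_length_le Bool L).to_subtype

noncomputable instance instFintypeZs (L : ℕ) : Fintype (Zs L) := @Fintype.ofFinite _ (finite_Zs L)

open Classical in
/-- positions of the secret of a string of length at most `L` -/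
noncomputable def pz (L : ℕ) : Str → Option (PosI (Zs L) (X L) (Str × (ℕ × Bool)))
  | true :: w => match tdec w with
    | none => none
    | some p => if h : p.1.1 = 1 ∧ p.1.2.length = 2 * (p.1.2.length / 2) ∧
        p.1.2.length / 2 ≤ L then
        some (PosI.dir ⟨p.1.2.take (p.1.2.length / 2), by
          rw [List.length_take]; exact (min_le_left _ _).trans h.2.2⟩
          (p.1.2.drop (p.1.2.length / 2), p.2)) else none
  | _ => none

/-- the data of the secrets -/
noncomputable def stgS (L : ℕ) : Stg (Zs L) (X L) (Str × (ℕ × Bool)) where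
  ps := pz L
  ln z := Encodable.encode z.1
  rd q i := bit [decide (q.1.take i.1.length = i.1)] i.2
  rz _ _ := false

/-- the secrets given by a function on the strings of length at most `L` -/
def secT (L : ℕ) (T : Zs L → X L) : Sec := fun n x =>
  if h : n ≤ L then ⟨(T ⟨x.1, by rw [x.2]; exact h⟩).1.take n, by
    rw [List.length_take, (T _).2]; exact min_eq_left h⟩ else x

/-- trivial secrets -/
def sec0 : Sec := fun _ x => x

/-- the tree that tells whether the output of `t` is the secret of `x` -/
def gsT {n : ℕ} (x : X n) (t : DT Str) : DT Bool :=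
  t.bind fun y => if y.length = n then
    DT.node (true :: taddr 1 (x.1 ++ y) 0 true) (DT.leaf false) (DT.leaf true) else DT.leaf false

/-! ## Numerical parameters (`Lam`, `KK`, `dd` are those of `TD`) -/

/-- inverse of the advantage -/
def Del (k n : ℕ) : ℕ := 2 ^ (Lam n + 2 * (KK n - k))
/-- class size exponent -/
def aa (k n : ℕ) : ℕ := n / 3 + 2 + (KK n - k) * (8 * Lam n + 2 * KK n + 40)
/-- circuit size exponent -/
def uu (k n : ℕ) : ℕ := aa k n - Lam n
/-- number of known entries -/
def ss (k n : ℕ) : ℕ := 2 ^ (aa (k + 1) n + 2 * Lam n + 2 * KK n + 3)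
/-- inverse of the hard core parameter -/
def NN (k : ℕ) : ℕ := 8 * dd (3 * sM k) * 2 ^ (Lam (3 * sM k) + 2 * KK (3 * sM k))
/-- bound for the number of tests -/
def lenk (k : ℕ) : ℕ := 4 * (NN k) ^ 2 * (2 * (qb k + 1) + 1)

/-! ## Levels -/

/-- The data: an oracle, games, bounds for circuits and values of the games. -/
structure Par where
  R : Lang
  G : ℕ → Game
  t : ℕ → ℕ
  v : ℕ → ℝ

/-- Levels: `n`, or a game. -/
abbrev Lvl : Type := ℕ ⊕ ℕ

/-- the level of circuits of size `T` -/
noncomputable def nn (T : ℕ) : ℕ := sInf {n | 16 ≤ n ∧ T ≤ dd n}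

/-- the number of the level -/
noncomputable def lev (P : Par) : Lvl → ℕ
  | .inl n => n
  | .inr j => nn (P.t j)

/-- number of random bits of the level -/
def om (P : Par) : Lvl → ℕ
  | .inl n => n
  | .inr j => (P.G j).s

/-- what the adversary has to find -/
def tgt (P : Par) (S : Sec) : (i : Lvl) → X (om P i) → Str
  | .inl n, x => (S n x).1
  | .inr _, _ => [true]

/-- the trivial winning probability -/
def v0 (P : Par) : Lvl → ℝ
  | .inl _ => 0
  | .inr j => P.v j

/-- number of inputs on which the adversary finds `v` -/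
def hits {m : ℕ} (v : X m → Str) (A : X m → DT Str) (O : Lang) : ℕ :=
  (Finset.univ.filter fun x => (A x).eval O = v x).card

/-- permitted number of hits -/
noncomputable def thr (P : Par) (k : ℕ) (i : Lvl) : ℝ :=
  (v0 P i + 1 / (Del k (lev P i) : ℝ)) * 2 ^ om P i

/-! ## Adversaries -/

/-- families of adversaries -/
abbrev Fam (P : Par) : Type := ∀ i : Lvl, Set (X (om P i) → DT Str)

/-- Simulations. -/
def Sim (k n : ℕ) {m : ℕ} (Fm : Set (X m → DT Str)) : Set (X m → DT Str) :=
  {A' | ∃ A ∈ Fm, ∃ ρ : List (Z k × Q k), ρ.length ≤ ss k n ∧ ∃ r : List (Q k),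
    r.length = dd n ∧ A' = fun x => simI (stgJ k) [] (A x) ρ r}

/-- Data of a test: the tree, the value, known entries, entries before and after the argument. -/
structure Tst (k : ℕ) where
  τ : DT Str
  b : Str
  ρ : List (Z k × Q k)
  pre : List (Q k)
  post : List (Q k)

/-- the tree of a test -/
noncomputable def Tst.tree {k : ℕ} (t : Tst k) (q : Q k) : DT Bool :=
  (simI (stgJ k) [] t.τ t.ρ (t.pre ++ q :: t.post)).map fun y => y == t.b

/-- admissible tests -/
def TstOK (P : Par) (n0 k : ℕ) (Fm : Fam P) (t : Tst k) : Prop :=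
  ∃ i, n0 ≤ lev P i ∧ lev P i < 3 * sM k ∧ k < KK (lev P i) ∧ (∃ A ∈ Fm i, ∃ x, t.τ = A x) ∧
    t.b.length ≤ lev P i ∧ t.ρ.length ≤ ss k (lev P i) ∧ t.pre.length ≤ dd (lev P i) ∧
    t.post.length ≤ dd (lev P i)

/-- The reduction with its questions answered by a threshold of tests and a list of exceptions. -/
def Cmp (P : Par) (n0 k : ℕ) (Fm : Fam P) (n : ℕ) : Set (X n → DT Str) :=
  {A' | n = sn k ∧ ∃ l : List (Tst k), l.length ≤ lenk k ∧ (∀ t ∈ l, TstOK P n0 k Fm t) ∧
    ∃ θ ≤ l.length + 1, ∃ E : List (Str × Bool), E.length ≤ excI k ∧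
      (∀ p ∈ E, p.1.length ≤ qb k) ∧ ∃ w : Str, w.length ≤ (3 * sn k + 2) ^ sj k ∧
      A' = fun x => DT.tr (thrX (l.map Tst.tree) θ E) (invTreeW (iM (sj k)) w n x.1)}

/-- the circuits for the game `j` at stage `k`, with horizon `N` -/
def GF (P : Par) (N k j : ℕ) : Set (X (P.G j).s → DT Str) :=
  {A | lev P (.inr j) ≤ N ∧
    A ∈ CircF (P.G j) (2 ^ uu k (lev P (.inr j))) (dd (lev P (.inr j)))}

open Classical in
/-- The derived family. -/
noncomputable def Next (P : Par) (t0 : ℕ → ℕ) (n0 N k : ℕ) (Fm : Fam P) : Fam P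
  | .inl n => if Act t0 k then (if k < KK n then Sim k n (Fm (.inl n)) else Fm (.inl n)) ∪
      Cmp P n0 k Fm n else Fm (.inl n)
  | .inr j => GF P N k j

/-- the final family with horizon `N` -/
def FinF (P : Par) (N : ℕ) : Fam P
  | .inl _ => ∅
  | .inr j => GF P N N j

/-- the families at the stages `N - r` -/
noncomputable def Cl (P : Par) (t0 : ℕ → ℕ) (n0 N : ℕ) : ℕ → Fam P
  | 0 => FinF P N
  | r + 1 => Next P t0 n0 N (N - (r + 1)) (Cl P t0 n0 N r)

/-- bounds for number, depth and questions -/
def Bdd (P : Par) (n0 k : ℕ) (Fm : Fam P) : Prop :=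
  ∀ i, n0 ≤ lev P i → (Fm i).Finite ∧ (Fm i).ncard ≤ 2 ^ 2 ^ aa k (lev P i) ∧
    ∀ A ∈ Fm i, ∀ x, (A x).depth ≤ dd (lev P i) ∧ (A x).AllQ fun w => w.length ≤ dd (lev P i)

/-- all adversaries of the family are defeated -/
def Def (P : Par) (n0 k : ℕ) (S : Sec) (O : Lang) (Fm : Fam P) : Prop :=
  ∀ i, n0 ≤ lev P i → ∀ A ∈ Fm i, (hits (tgt P S i) A O : ℝ) < thr P k i

/-- assumptions about the data: the games have values at most `v j` for circuits of size
`2 ^ (nn (t j) - 2)` relative to `R` -/
structure Par.OK (P : Par) : Prop where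
  hs : ∀ j, (P.G j).s ≤ P.t j
  fin : ∀ T, {j | P.t j ≤ T}.Finite
  cnt : ∀ T, {j | P.t j ≤ T}.ncard ≤ 2 ^ T
  v_nonneg : ∀ j, 0 ≤ P.v j
  v_le : ∀ j, P.v j ≤ 1
  hard : ∀ j, Hard P.R (P.G j) (2 ^ (nn (P.t j) - 2)) (P.v j)

/-! ## Goals of the stages -/

/-- the Turing reduction with a suitable advice is correct on the relevant strings of the level
`sn k` -/
def CorrW (F : ℕ → Lang → Lang) (S : Sec) (k : ℕ) (O : Lang) : Prop :=
  ∃ w : Str, w.length ≤ (3 * sn k + 2) ^ sj k ∧ ∀ x : X (sn k), ∀ i < sn k,
    PLW (iM (sj k)) w (join O (EL F (iC (sj k)) O)) (x.1 ++ unitv (sn k) i) =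
      VV S (x.1 ++ unitv (sn k) i)

/-- what the table of stage `k` has to do -/
def Goal (F : ℕ → Lang → Lang) (S : Sec) (k : ℕ) (O : Lang) (Tab : ℕ → Str → Str) : Prop :=
  (∀ z ∈ ZSet k, (Tab (se k) z).length ≤ qb k) ∧
  (∀ w ∈ ISet k, Tab (se k + 1) w = invTab Tab k w) ∧
  (CorrW F S k O → ∀ z ∈ ZSet k, EL F (iC (sj k)) O (Tab (se k) z) = EL F (iN (sj k)) O z ∧
    sM k ≤ (Tab (se k) z).length ∧
    ∀ z' : Str, z'.length + 2 < sM k → Tab (se k) z' = Tab (se k) z → z' = z)

/-- numerical conditions for a level -/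
structure NumN (n : ℕ) : Prop where
  h16 : 16 ≤ n
  hL1 : 8 ≤ Lam n
  /-- the simulation of a table is a circuit of the next size -/
  hK : 1 ≤ KK n
  ha0 : aa 0 n + 8 * Lam n + 4 * KK n + 50 ≤ n - 3
  hL : Lam n ≤ n / 12
  hn : 2 * (n + 8) ≤ 2 ^ Lam n

/-- numerical conditions for an active stage -/
structure NumK (n0 k : ℕ) : Prop where
  /-- level `sn k` is protected and stage `k` is relevant for it -/
  hn0 : n0 ≤ sn k
  hK : k < KK (sn k)
  /-- depth and lengths of the inversion tree with tests -/
  hdepth : sn k * ((3 * sn k + 2) ^ (sj k) * (lenk k * dd (3 * sM k) + 1)) ≤ dd (sn k)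
  hlen : qb k + 1 ≤ dd (sn k)
  hdd : dd (3 * sM k) ≤ dd (sn k)
  /-- number of derived adversaries -/
  hcard : (lenk k + 2) * 2 ^ (3 * Lam (3 * sM k) + 2 * KK (3 * sM k) + aa 0 (3 * sM k) + 12) +
    lenk k + 2 + (excI k + 1) * (qb k + 4) ≤ 2 ^ (sn k / 3)
  /-- probability of a hit of an inverse question -/
  heps : NN k ≤ 2 ^ (3 * sM k)

/-! ## Agreement of oracles and security at a level -/

/-- agreement of two oracles on everything that is described by numbers up to `b` -/
def Agree (b : ℕ) (S S' : Sec) (Tab Tab' : ℕ → Str → Str) : Prop :=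
  (∀ n, n ≤ b → S n = S' n) ∧ ∀ e, e ≤ b → ∀ z : Str, z.length ≤ b → Tab e z = Tab' e z

/-- security of the game `j` -/
def SecAt (P : Par) (S : Sec) (Tab : ℕ → Str → Str) (j : ℕ) : Prop :=
  ∀ C : Circuit, C.size ≤ P.t j → ((P.G j).count (OJ P.R S Tab) C : ℝ) ≤
    (P.v j + 1 / (P.t j : ℝ)) * 2 ^ (P.G j).s

end Pool.Agent.ABO
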