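import Pool.Agent.Lib_helper27.ABO.Step

/-!
# The stages one after the other
-/

set_option autoImplicit false

namespace Pool.Agent.ABO

open Pool.Agent.CK
open Pool.Agent.TD (Str su sj st Act se sm sM sn sD ZSet Z Q unitv Lam KK dd)
open Pool.Agent.TD.IS (PosI Stg uq patchI simI evM icode idec strip ISet posK zs updI PLW PTW
  invTreeW thrX invTab excI LocalWith PolyLocal Cls EL)

theorem next_inl_neg {P : Par} {t0 : ℕ → ℕ} {n0 N k : ℕ} {Fm : Fam P} (hact : ¬ Act t0 k)
    (n : ℕ) : Next P t0 n0 N k Fm (.inl n) = Fm (.inl n) :=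
  if_neg hact

theorem sim_bounds {k n m : ℕ} {Fm : Set (X m → DT Str)}
    (hF : ∀ A ∈ Fm, ∀ x, (A x).depth ≤ dd n ∧ (A x).AllQ fun w => w.length ≤ dd n) :
    ∀ A ∈ Sim k n Fm, ∀ x, (A x).depth ≤ dd n ∧ (A x).AllQ fun w => w.length ≤ dd n := by
  rintro A' ⟨A, hA, ρ, -, r, -, rfl⟩ x
  exact ⟨(TD.IS.depth_simI _ _ _ _ _).trans (hF A hA x).1,
    TD.IS.allQ_simI _ _ _ _ _ _ (hF A hA x).2⟩

/-- bounds for the circuits for a game -/
theorem bdd_game {P : Par} {N k j : ℕ} (hN : NumN (lev P (.inr j))) :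
    (GF P N k j).Finite ∧ (GF P N k j).ncard ≤ 2 ^ 2 ^ aa k (lev P (.inr j)) ∧
    ∀ A ∈ GF P N k j, ∀ x, (A x).depth ≤ dd (lev P (.inr j)) ∧
      (A x).AllQ fun w => w.length ≤ dd (lev P (.inr j)) := by
  obtain ⟨h1, h2⟩ := num_circ hN k
  have h3 := card_mono (card_circ (P.G j) (uu k (lev P (.inr j))) (dd (lev P (.inr j))) h1)
    (S := GF P N k j) (fun A hA => hA.2) h2
  exact ⟨h3.1, h3.2, fun A hA x => circF_bounds hA.2 x⟩

theorem bdd_next {P : Par} (hP : P.OK) {t0 : ℕ → ℕ} {n0 N k : ℕ} {Fm : Fam P} (h16 : 16 ≤ n0)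
    (hN : ∀ n, n0 ≤ n → NumN n) (hK : Act t0 k → NumK n0 k) (hF : Bdd P n0 (k + 1) Fm) :
    Bdd P n0 k (Next P t0 n0 N k Fm) := by
  intro i hi
  cases i with
  | inr j => exact bdd_game (hN _ hi)
  | inl n =>
    obtain ⟨h1, h2, h3⟩ := hF (.inl n) hi
    change n0 ≤ n at hi
    have h2' : (Fm (.inl n)).ncard ≤ 2 ^ 2 ^ aa (k + 1) n := h2
    have h3' : ∀ A ∈ Fm (.inl n), ∀ x, (A x).depth ≤ dd n ∧
      (A x).AllQ fun w => w.length ≤ dd n := h3
    by_cases hact : Act t0 k
    · have hnum := hK hact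
      have h5 : 5 ≤ sj k := hact.1
      have h2s : 2 * sj k ≤ su k := hact.2.1
      have hcmp := card_cmp P hP n0 k Fm h16 h5 h2s hnum hF n
      have hdep := cmp_depth P n0 k Fm h16 hnum hF n
      have e := next_inl (P := P) (n0 := n0) (N := N) (Fm := Fm) hact n
      by_cases hk : k < KK n
      · have hsim := card_sim k n (Fm (.inl n)) h5 h2s hk ⟨h1, h2'⟩
        rw [if_pos hk] at e
        rw [e]
        have hle : n / 3 ≤ aa (k + 1) n + 3 * Lam n + 2 * KK n + 6 := by unfold aa; omega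
        have hu := card_union hsim (card_mono hcmp le_rfl
          (Nat.pow_le_pow_right (by norm_num) hle))
        have hb : CardBd (Sim k n (Fm (.inl n)) ∪ Cmp P n0 k Fm n) (2 ^ aa k n) := by
          refine card_mono hu le_rfl ?_
          have h4 : 2 ^ (aa (k + 1) n + 3 * Lam n + 2 * KK n + 6) + 1 ≤
              2 ^ (aa (k + 1) n + 3 * Lam n + 2 * KK n + 6 + 1) := by
            rw [pow_succ 2 (aa (k + 1) n + 3 * Lam n + 2 * KK n + 6)]
            have := Nat.one_le_two_pow (n := aa (k + 1) n + 3 * Lam n + 2 * KK n + 6)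
            omega
          refine h4.trans (Nat.pow_le_pow_right (by norm_num) ?_)
          rw [aa_step hk]; omega
        refine ⟨hb.1, hb.2, ?_⟩
        rintro A (hA | hA) x
        · exact sim_bounds h3' A hA x
        · exact hdep A hA x
      · have hk' : KK n ≤ k := not_lt.1 hk
        rw [if_neg hk] at e
        have hemp : Cmp P n0 k Fm n = ∅ := by
          apply Set.eq_empty_of_forall_notMem
          rintro A ⟨hsn, -⟩
          have := hnum.hK
          rw [← hsn] at this
          exact hk this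
        rw [e, hemp]
        have e2 : Fm (.inl n) ∪ (∅ : Set (X n → DT Str)) = Fm (.inl n) := Set.union_empty _
        rw [e2]
        refine ⟨h1, ?_, h3'⟩
        show _ ≤ 2 ^ 2 ^ aa k n
        rw [← aa_irrel hk']; exact h2'
    · have e := next_inl_neg (P := P) (n0 := n0) (N := N) (Fm := Fm) hact n
      rw [e]
      refine ⟨h1, h2'.trans ?_, h3⟩
      exact Nat.pow_le_pow_right (by norm_num) (Nat.pow_le_pow_right (by norm_num) (aa_anti k n))

theorem bdd_fin {P : Par} {n0 N : ℕ} (hN : ∀ n, n0 ≤ n → NumN n) : Bdd P n0 N (FinF P N) := by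
  intro i hi
  cases i with
  | inr j => exact bdd_game (hN _ hi)
  | inl n =>
    show (∅ : Set (X n → DT Str)).Finite ∧ (∅ : Set (X n → DT Str)).ncard ≤ _ ∧ _
    refine ⟨Set.finite_empty, by simp, ?_⟩
    intro A hA
    exact absurd hA (Set.notMem_empty _)

theorem bdd_cl {P : Par} (hP : P.OK) {t0 : ℕ → ℕ} {n0 N : ℕ} (h16 : 16 ≤ n0)
    (hN : ∀ n, n0 ≤ n → NumN n) (hK : ∀ k, Act t0 k → NumK n0 k) :
    ∀ r ≤ N, Bdd P n0 (N - r) (Cl P t0 n0 N r) := by
  intro r
  induction r with
  | zero => intro _; exact bdd_fin hN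
  | succ r ih =>
    intro hr
    have h := ih (by omega)
    have e : N - r = (N - (r + 1)) + 1 := by omega
    rw [e] at h
    exact bdd_next hP h16 hN (hK _) h

theorem cl_game (P : Par) (t0 : ℕ → ℕ) (n0 N : ℕ) (r : ℕ) (j : ℕ) :
    Cl P t0 n0 N r (.inr j) = GF P N (N - r) j := by
  cases r with
  | zero => rfl
  | succ r => rfl

/-- the derived families are empty at high levels -/
theorem cl_empty (P : Par) (t0 : ℕ → ℕ) (n0 N r : ℕ) :
    ∃ Nh, ∀ i, Nh < lev P i → Cl P t0 n0 N r i = ∅ := by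
  induction r with
  | zero =>
    refine ⟨N, fun i hi => ?_⟩
    cases i with
    | inl n => rfl
    | inr j =>
      apply Set.eq_empty_of_forall_notMem
      rintro A ⟨h1, _⟩
      omega
  | succ r ih =>
    obtain ⟨Nh, hNh⟩ := ih
    refine ⟨max (max Nh N) (sn (N - (r + 1))), fun i hi => ?_⟩
    have h1 : Nh < lev P i :=
      lt_of_le_of_lt ((le_max_left _ _).trans (le_max_left _ _)) hi
    have h1' : N < lev P i :=
      lt_of_le_of_lt ((le_max_right _ _).trans (le_max_left _ _)) hi
    have h2 : sn (N - (r + 1)) < lev P i := lt_of_le_of_lt (le_max_right _ _) hi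
    have h3 := hNh i h1
    cases i with
    | inr j =>
      apply Set.eq_empty_of_forall_notMem
      rintro A ⟨h4, _⟩
      omega
    | inl n =>
      change sn (N - (r + 1)) < n at h2
      show Next P t0 n0 N (N - (r + 1)) (Cl P t0 n0 N r) (.inl n) = ∅
      have hsim : Sim (N - (r + 1)) n (Cl P t0 n0 N r (.inl n)) = ∅ := by
        rw [h3]
        apply Set.eq_empty_of_forall_notMem
        rintro A ⟨B, hB, _⟩
        exact hB
      have hcmp : Cmp P n0 (N - (r + 1)) (Cl P t0 n0 N r) n = ∅ := by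
        apply Set.eq_empty_of_forall_notMem
        rintro A ⟨h4, _⟩
        omega
      by_cases hact : Act t0 (N - (r + 1))
      · rw [next_inl hact n, hcmp]
        by_cases hk : N - (r + 1) < KK n
        · rw [if_pos hk, hsim]; exact Set.union_empty _
        · rw [if_neg hk, h3]; exact Set.union_empty _
      · rw [next_inl_neg hact n, h3]

theorem sM_le_alen (k : ℕ) (w : Str) (hw : w ∈ ISet k) : sM k ≤ alen (se k + 1) w := by
  have h1 := (TD.IS.iset_length hw).1
  have h2 : 2 ≤ sm k := TD.stb_sm_ge k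
  unfold alen
  calc sM k ≤ w.length + 2 := by omega
    _ ≤ (w.length + 2) ^ ((se k + 1) ^ 2) := Nat.le_self_pow (by positivity) _

/-- All stages. -/
theorem iterate {F : ℕ → Lang → Lang} {P : Par} (hP : P.OK) {t0 : ℕ → ℕ} {n0 N : ℕ}
    (h16 : 16 ≤ n0) (hN : ∀ n, n0 ≤ n → NumN n) (hK : ∀ k, Act t0 k → NumK n0 k) (S : Sec)
    (h0 : Def P n0 0 S (OJ P.R S fun _ _ => []) (Cl P t0 n0 N N)) :
    ∀ k ≤ N, ∃ Tab : ℕ → Str → Str,
      Def P n0 k S (OJ P.R S Tab) (Cl P t0 n0 N (N - k)) ∧
      (∀ k' < k, Act t0 k' → Goal F S k' (OJ P.R S Tab) Tab) ∧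
      ∀ e z, (Tab e z).length ≤ alen e z := by
  intro k
  induction k with
  | zero =>
    intro _
    exact ⟨fun _ _ => [], h0, fun k' hk' => absurd hk' (Nat.not_lt_zero _),
      fun e z => Nat.zero_le _⟩
  | succ k ih =>
    intro hk
    obtain ⟨Tab, hdef, hgoal, hlen⟩ := ih (by omega)
    have e : N - k = (N - (k + 1)) + 1 := by omega
    have hcl : Cl P t0 n0 N (N - k) =
        Next P t0 n0 N k (Cl P t0 n0 N (N - (k + 1))) := by
      rw [e]
      have e2 : N - (N - (k + 1) + 1) = k := by omega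
      show Next P t0 n0 N (N - (N - (k + 1) + 1)) _ = _
      rw [e2]
    have hG : ∀ j, Cl P t0 n0 N (N - (k + 1)) (.inr j) = GF P N (k + 1) j := by
      intro j
      rw [cl_game]
      have e3 : N - (N - (k + 1)) = k + 1 := by omega
      rw [e3]
    rw [hcl] at hdef
    by_cases hact : Act t0 k
    · have h5 : 5 ≤ sj k := hact.1
      have h2 : 2 * sj k ≤ su k := hact.2.1
      have hB : Bdd P n0 (k + 1) (Cl P t0 n0 N (N - (k + 1))) := by
        have := bdd_cl (N := N) hP h16 hN hK (N - (k + 1)) (by omega)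
        have e3 : N - (N - (k + 1)) = k + 1 := by omega
        rwa [e3] at this
      obtain ⟨T, hT1, hT2⟩ := step_stage (F := F) hP h16 hN hact (hK k hact) hB hG hdef
      refine ⟨updI Tab k T, hT1, ?_, ?_⟩
      · intro k' hk' hact'
        rcases Nat.lt_succ_iff_lt_or_eq.1 hk' with h | h
        · refine goal_congr hact'.1 hact'.2.1 (O := OJ P.R S Tab) (Tab := Tab) ?_ ?_ ?_
            (hgoal k' h hact')
          · intro w hw
            exact (OJ_low P.R S Tab k T h5 h2 w (hw.trans_le (TD.sD_mono h.le))).symm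
          · intro z hz
            exact (TD.IS.updI_low Tab k' k T h hact'.1 hact'.2.1 h5 h2 z hz).symm
          · intro w hw
            exact (TD.IS.updI_other_inv Tab k' k T h.ne hact'.1 hact'.2.1 h5 h2 w hw).symm
        · subst h
          exact hT2
      · intro e z
        rcases TD.IS.updI_length Tab k T e z with h | ⟨rfl, hz, h⟩ | ⟨rfl, hz, h⟩
        · rw [h]; exact hlen e z
        · exact h.trans (TD.qb_le_alen k h5 h2 z hz)
        · exact h.le.trans (sM_le_alen k z hz)
    · refine ⟨Tab, ?_, ?_, hlen⟩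
      · intro i hi A hA
        refine lt_of_lt_of_le (hdef i hi A ?_) (thr_mono P k i)
        cases i with
        | inl n => rw [next_inl_neg hact n]; exact hA
        | inr j =>
          rw [hG j] at hA
          exact mem_next_game hA
      · intro k' hk' hact'
        rcases Nat.lt_succ_iff_lt_or_eq.1 hk' with h | h
        · exact hgoal k' h hact'
        · subst h
          exact absurd hact' hact

end Pool.Agent.ABO
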