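import Pool.Agent.Lib_helper74.CKF.Basic

/-!
# The notions of the final theorem (MP_675993_lc): interactive oracle circuits, games, reductions
-/

set_option autoImplicit false

namespace Pool.Agent.ABO

open Pool.Agent.CK

/-- Boolean formulas in numbered bits. -/
inductive Fml : Type
  | tru
  | var (i : ℕ)
  | nand (a b : Fml)

namespace Fml

/-- The value of the formula if the bits are `W` (missing bits count as `0`). -/
def eval (W : List Bool) : Fml → Bool
  | tru => true
  | var i => W.getD i false
  | nand a b => !(eval W a && eval W b)

/-- number of symbols -/
def size : Fml → ℕ
  | tru => 1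
  | var _ => 1
  | nand a b => a.size + b.size + 1

end Fml

/-- Gates of interactive circuits.  Every gate computes one bit from the bits computed before:
by a formula, as the answer of the oracle to the question that consists of the bits with the
numbers in `l`, or as the answer of the challenger to this question. -/
inductive Gate : Type
  | fml (φ : Fml)
  | ask (l : List ℕ)
  | chal (l : List ℕ)

/-- number of symbols -/
def Gate.size : Gate → ℕ
  | .fml φ => φ.size + 1
  | .ask l => l.length + 1
  | .chal l => l.length + 1

/-- An interactive circuit: gates, and the numbers of the output bits. -/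
structure Circuit where
  gates : List Gate
  out : List ℕ

/-- number of symbols -/
def Circuit.size (C : Circuit) : ℕ := (C.gates.map Gate.size).sum + C.out.length

/-- the bits with the numbers in `l` -/
def sel (W : List Bool) (l : List ℕ) : List Bool := l.map fun i => W.getD i false

/-- One gate with oracle `O` and challenger `ch` (whose answer may depend on the earlier questions
to the challenger).  The state consists of the bits and the questions to the challenger. -/
def gstep (O : Lang) (ch : List (List Bool) → List Bool → Bool)
    (s : List Bool × List (List Bool)) : Gate → List Bool × List (List Bool)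
  | .fml φ => (s.1 ++ [φ.eval s.1], s.2)
  | .ask l => (s.1 ++ [O (sel s.1 l)], s.2)
  | .chal l => (s.1 ++ [ch s.2 (sel s.1 l)], s.2 ++ [sel s.1 l])

/-- The questions of the circuit to the challenger, and its output. -/
def Circuit.play (C : Circuit) (O : Lang) (ch : List (List Bool) → List Bool → Bool) :
    List (List Bool) × List Bool :=
  ((C.gates.foldl (gstep O ch) ([], [])).2, sel (C.gates.foldl (gstep O ch) ([], [])).1 C.out)

/-- A game between a circuit and a challenger with `s` random bits: `ch ω qs q` is the answer of
the challenger with random bits `ω` to the question `q` after the questions `qs`; the circuit wins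
if `win ω qs y`, where `qs` are all its questions and `y` is its output. -/
structure Game where
  s : ℕ
  ch : List Bool → List (List Bool) → List Bool → Bool
  win : List Bool → List (List Bool) → List Bool → Bool

/-- The circuit `C` with oracle `O` wins against the challenger with random bits `ω`. -/
def Game.wins (G : Game) (O : Lang) (C : Circuit) (ω : List Bool) : Bool :=
  G.win ω (C.play O (G.ch ω)).1 (C.play O (G.ch ω)).2

/-- number of `ω ∈ {0,1}^s` for which the circuit wins -/
noncomputable def Game.count (G : Game) (O : Lang) (C : Circuit) : ℕ :=
  Nat.card {ω : List Bool // ω.length = G.s ∧ G.wins O C ω = true}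

/-- Circuits of size at most `t` with oracle `O` win the game with probability at most `v`. -/
def Hard (O : Lang) (G : Game) (t : ℕ) (v : ℝ) : Prop :=
  ∀ C : Circuit, C.size ≤ t → (G.count O C : ℝ) ≤ v * 2 ^ G.s

/-! ### Classes, reductions and isomorphisms (the same as in `Lib_helper74/IS/Defs.lean`) -/

/-- Polynomially local operators: for some `k`, whether `x` is in the language `L O` depends only
on the part of the oracle `O` up to length `(|x| + 2) ^ k`. -/
def LocalOp (L : Lang → Lang) : Prop :=
  ∃ k : ℕ, ∀ (x : List Bool) (O O' : Lang),
    (∀ w : List Bool, w.length ≤ (x.length + 2) ^ k → O w = O' w) → L O x = L O' x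

/-- the part of the oracle up to length `m` -/
def cut (m : ℕ) (O : Lang) : Lang := fun w => decide (w.length ≤ m) && O w

/-- `A` is decided in exponential time with questions of polynomial length to `O`: for a program
`c` and a `k`, on the input `x` the program runs for at most `2 ^ ((|x| + 2) ^ k)` steps, and only
the strings of length at most `(|x| + 2) ^ k` are answered by `O` (the others get the answer `0`).
This class contains `PSPACE^O`, `PP^O` and the polynomial hierarchy relative to `O`. -/
def InEXPshort (O A : Lang) : Prop :=
  ∃ (c : Cmd) (k : ℕ), ∀ x : List Bool,
    Halts (cut ((x.length + 2) ^ k) O) c x [] (2 ^ (x.length + 2) ^ k) ∧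
    (Accepts (cut ((x.length + 2) ^ k) O) c x [] (2 ^ (x.length + 2) ^ k) ↔ A x = true)

/-- `A` is reducible to `B` by a Turing reduction with running time and advice of polynomial
length, relative to `O` (the advice `w n` is given on stack `1`). -/
def AdviceTuringReducible (O A B : Lang) : Prop :=
  ∃ (c : Cmd) (k : ℕ) (w : ℕ → List Bool), (∀ n, (w n).length ≤ (n + 2) ^ k) ∧
    ∀ x : List Bool, Halts (join O B) c x (w x.length) ((x.length + 2) ^ k) ∧
      (Accepts (join O B) c x (w x.length) ((x.length + 2) ^ k) ↔ A x = true)

/-- `A` and `B` are isomorphic by a bijection `h` of the strings such that `h` and its inverse `g`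
are computable in polynomial time with oracle `O`. -/
def Isomorphic (O A B : Lang) : Prop :=
  ∃ h g : List Bool → List Bool, InFP O h ∧ InFP O g ∧ (∀ x, g (h x) = x) ∧ (∀ y, h (g y) = y) ∧
    ∀ x, A x = B (h x)

end Pool.Agent.ABO
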